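import Mathlib
import Pool.Graph.R_seed8.H337R3.Sid2

set_option autoImplicit false
set_option linter.unusedSectionVars false

/-!
# Subgaussian sets of characters of compact abelian groups

After `Pool.Graph.R_pool_sql_team_seeded_b0a926ef.Results.MP_080bf7_an.SubgaussianIffQuasiIndependent`, for arbitrary
compact abelian groups.
-/

namespace Pool.Agent.H46.SG

open MeasureTheory TopologicalSpace
open Pool.Agent.H337R3.Sid (QI)

/-- Continuous characters of a topological abelian group `G`, indexed by an abelian group `Γ`. -/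
structure Pairing (Γ G : Type*) [AddCommGroup Γ] [AddCommGroup G] [TopologicalSpace G] where
  chr : Γ → G → ℂ
  zero : ∀ t, chr 0 t = 1
  add : ∀ m n t, chr (m + n) t = chr m t * chr n t
  add' : ∀ n s t, chr n (s + t) = chr n s * chr n t
  norm : ∀ n t, ‖chr n t‖ = 1
  cont : ∀ n, Continuous (chr n)
  ne : ∀ n, n ≠ 0 → ∃ t, chr n t ≠ 1

variable {Γ G : Type*} [AddCommGroup Γ] [AddCommGroup G] [TopologicalSpace G]

theorem Pairing.chr_neg (P : Pairing Γ G) (n : Γ) (t : G) :
    P.chr (-n) t = starRingEnd ℂ (P.chr n t) := by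
  have h := P.add (-n) n t
  rw [neg_add_cancel, P.zero] at h
  have h2 : starRingEnd ℂ (P.chr n t) * P.chr n t = 1 := by
    rw [mul_comm, Complex.mul_conj, Complex.normSq_eq_norm_sq, P.norm]
    norm_num
  have h3 : P.chr n t ≠ 0 := by
    intro h0
    have := P.norm n t
    rw [h0, norm_zero] at this
    norm_num at this
  exact mul_right_cancel₀ h3 (h.symm.trans h2.symm)

/-- The integral in the definition of the `ψ₂` norm. -/
noncomputable def gauss [MeasurableSpace G] (μ : Measure G) (f : G → ℂ) (c : ℝ) : ENNReal :=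
  ∫⁻ t, ENNReal.ofReal (Real.exp (‖f t‖ ^ 2 / c ^ 2)) ∂μ

variable [IsTopologicalAddGroup G] [CompactSpace G] [MeasurableSpace G] [BorelSpace G]
  (μ : Measure G) [IsProbabilityMeasure μ] [μ.IsAddLeftInvariant] (P : Pairing Γ G)

@[fun_prop]
theorem Pairing.meas (n : Γ) : Measurable (P.chr n) := (P.cont n).measurable

theorem integral_chr (n : Γ) (hn : n ≠ 0) : ∫ t, P.chr n t ∂μ = 0 := by
  obtain ⟨s, hs⟩ := P.ne n hn
  have h1 : ∫ t, P.chr n (s + t) ∂μ = ∫ t, P.chr n t ∂μ :=
    integral_add_left_eq_self _ s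
  simp_rw [P.add'] at h1
  rw [integral_const_mul] at h1
  have h2 : (P.chr n s - 1) * ∫ t, P.chr n t ∂μ = 0 := by
    rw [sub_mul, one_mul, h1, sub_self]
  rcases mul_eq_zero.1 h2 with h | h
  · exact absurd (sub_eq_zero.1 h) hs
  · exact h

/-! ### subgaussian sets are small -/

theorem poly_continuous (P : Pairing Γ G) (A : Finset Γ) (a : Γ → ℂ) :
    Continuous fun t => ∑ n ∈ A, a n * P.chr n t :=
  continuous_finsetSum _ fun n _ => continuous_const.mul (P.cont n)

theorem annihilator_measure (A : Finset Γ)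
    [Finite (AddSubgroup.closure (A : Set Γ))] :
    1 ≤ (Nat.card (AddSubgroup.closure (A : Set Γ)) : ENNReal) *
      μ {t | ∀ n ∈ A, P.chr n t = 1} := by
  classical
  set M := AddSubgroup.closure (A : Set Γ) with hM
  let _ := Fintype.ofFinite M
  let r : G → AddChar M ℂ := fun t =>
    { toFun := fun m => P.chr (m : Γ) t
      map_zero_eq_one' := by simpa using P.zero t
      map_add_eq_mul' := fun a b => by
        simp only [AddSubgroup.coe_add]
        exact P.add _ _ _ }
  have hr : ∀ t m, r t m = P.chr (m : Γ) t := fun _ _ => rfl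
  have hfib : ∀ ψ : AddChar M ℂ, μ {t | r t = ψ} ≤ μ {t | ∀ n ∈ A, P.chr n t = 1} := by
    intro ψ
    by_cases h : ∃ s, r s = ψ
    · obtain ⟨s, hs⟩ := h
      rw [← measure_preimage_add μ s {t | r t = ψ}]
      refine measure_mono ?_
      intro t ht n hn
      have h1 : r (s + t) = ψ := ht
      have h2 : r (s + t) ⟨n, AddSubgroup.subset_closure hn⟩ = r s ⟨n, AddSubgroup.subset_closure hn⟩ := by
        rw [h1, hs]
      rw [hr, hr, P.add'] at h2
      have h3 : P.chr n s ≠ 0 := by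
        intro h0
        have := P.norm n s
        rw [h0, norm_zero] at this
        norm_num at this
      exact mul_left_cancel₀ h3 (by rw [mul_one]; exact h2)
    · have : {t | r t = ψ} = ∅ := by
        ext t
        simp only [Set.mem_ofPred_eq, Set.mem_empty_iff_false, iff_false]
        exact fun h' => h ⟨t, h'⟩
      rw [this, measure_empty]
      exact bot_le
  have hcov : (⋃ ψ : AddChar M ℂ, {t | r t = ψ}) = Set.univ := by
    ext t
    simp
  calc (1 : ENNReal) = μ (⋃ ψ : AddChar M ℂ, {t | r t = ψ}) := by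
        rw [hcov, measure_univ]
    _ ≤ ∑ ψ : AddChar M ℂ, μ {t | r t = ψ} := measure_iUnion_fintype_le _ _
    _ ≤ ∑ _ψ : AddChar M ℂ, μ {t | ∀ n ∈ A, P.chr n t = 1} := Finset.sum_le_sum fun ψ _ => hfib ψ
    _ = _ := by
        rw [Finset.sum_const, Finset.card_univ, AddChar.card_eq, nsmul_eq_mul,
          Nat.card_eq_fintype_card]

theorem card_le_of_gauss (A : Finset Γ)
    [Finite (AddSubgroup.closure (A : Set Γ))] (c : ℝ)
    (h : gauss μ (fun t => ∑ n ∈ A, (1 : ℂ) * P.chr n t) c ≤ ENNReal.ofReal (Real.exp 1)) :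
    (A.card : ℝ) ^ 2 / c ^ 2 ≤
      1 + Real.log (Nat.card (AddSubgroup.closure (A : Set Γ))) := by
  set M := AddSubgroup.closure (A : Set Γ) with hM
  have hcont : Continuous fun t => Real.exp (‖∑ n ∈ A, (1 : ℂ) * P.chr n t‖ ^ 2 / c ^ 2) := by
    have := (poly_continuous P A (fun _ => (1 : ℂ))).norm
    fun_prop
  set ε : ENNReal := ENNReal.ofReal (Real.exp ((A.card : ℝ) ^ 2 / c ^ 2)) with hε
  have h1 : ε * μ {t | ∀ n ∈ A, P.chr n t = 1} ≤ ENNReal.ofReal (Real.exp 1) := by
    have h2 := mul_meas_ge_le_lintegral (μ := μ) (ENNReal.measurable_ofReal.comp hcont.measurable) ε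
    refine le_trans ?_ (h2.trans h)
    refine mul_le_mul_right (measure_mono ?_) ε
    intro t ht
    have h3 : ∑ n ∈ A, (1 : ℂ) * P.chr n t = A.card := by
      rw [Finset.sum_congr rfl (fun n hn => by rw [ht n hn, mul_one])]
      simp
    simp only [Set.mem_ofPred_eq, Function.comp]
    rw [h3, hε]
    simp
  have h2 : ε ≤ (Nat.card M : ENNReal) * ENNReal.ofReal (Real.exp 1) := by
    calc ε = ε * 1 := (mul_one _).symm
      _ ≤ ε * ((Nat.card M : ENNReal) * μ {t | ∀ n ∈ A, P.chr n t = 1}) :=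
          mul_le_mul_right (annihilator_measure μ P A) ε
      _ = (Nat.card M : ENNReal) * (ε * μ {t | ∀ n ∈ A, P.chr n t = 1}) := by ring
      _ ≤ _ := mul_le_mul_right h1 _
  have hMpos : (0 : ℝ) < Nat.card M := by
    exact_mod_cast Nat.card_pos
  have h3 : Real.exp ((A.card : ℝ) ^ 2 / c ^ 2) ≤ Nat.card M * Real.exp 1 := by
    have h4 : (Nat.card M : ENNReal) * ENNReal.ofReal (Real.exp 1) =
        ENNReal.ofReal (Nat.card M * Real.exp 1) := by
      rw [ENNReal.ofReal_mul (by positivity), ENNReal.ofReal_natCast]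
    rw [h4, hε] at h2
    exact (ENNReal.ofReal_le_ofReal_iff (by positivity)).1 h2
  have h4 := Real.log_le_log (Real.exp_pos _) h3
  rw [Real.log_exp, Real.log_mul hMpos.ne' (Real.exp_pos _).ne', Real.log_exp] at h4
  linarith

/-! ### quasi-independent sets are subgaussian -/

theorem exp_le_lin (l r x : ℝ) (hr : 0 ≤ r) (hx : |x| ≤ r) :
    Real.exp (l * x) ≤ Real.cosh (l * r) + Real.sinh (l * r) / r * x := by
  rcases hr.eq_or_lt with h | h
  · have hx0 : x = 0 := by
      rw [← h] at hx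
      exact abs_nonpos_iff.1 hx
    rw [← h, hx0]
    simp
  · have h1 := abs_le.1 hx
    set s : ℝ := (1 + x / r) / 2 with hs
    have hxr : x / r ≤ 1 := by rw [div_le_one h]; exact h1.2
    have hxr' : -1 ≤ x / r := by rw [le_div_iff₀ h]; linarith [h1.1]
    have hs0 : 0 ≤ s := by rw [hs]; linarith
    have hs1 : s ≤ 1 := by rw [hs]; linarith
    have h2 := convexOn_exp.2 (Set.mem_univ (l * r)) (Set.mem_univ (-(l * r))) hs0
      (by linarith : (0 : ℝ) ≤ 1 - s) (by ring)
    have h3 : s • (l * r) + (1 - s) • (-(l * r)) = l * x := by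
      simp only [smul_eq_mul]
      rw [hs]
      field_simp
      ring
    rw [h3] at h2
    refine h2.trans (le_of_eq ?_)
    simp only [smul_eq_mul]
    rw [Real.cosh_eq, Real.sinh_eq, hs]
    field_simp
    ring

/-- Coefficients of `cosh + s Re(a γ)`. -/
noncomputable def kap (l : ℝ) (a : ℂ) (ξ : ℤ) : ℂ :=
  if ξ = 0 then (Real.cosh (l * ‖a‖) : ℂ) else
    if ξ = 1 then ((Real.sinh (l * ‖a‖) / ‖a‖ : ℝ) : ℂ) * a / 2 else
      ((Real.sinh (l * ‖a‖) / ‖a‖ : ℝ) : ℂ) * (starRingEnd ℂ a) / 2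

theorem kap_sum (P : Pairing Γ G) (l : ℝ) (a : ℂ) (n : Γ) (t : G) :
    ∑ ξ ∈ ({-1, 0, 1} : Finset ℤ), kap l a ξ * P.chr (ξ • n) t =
      ((Real.cosh (l * ‖a‖) + Real.sinh (l * ‖a‖) / ‖a‖ * (a * P.chr n t).re : ℝ) : ℂ) := by
  rw [Finset.sum_insert (by decide), Finset.sum_insert (by decide), Finset.sum_singleton]
  have h1 : P.chr ((-1 : ℤ) • n) t = starRingEnd ℂ (P.chr n t) := by
    rw [neg_one_zsmul, P.chr_neg]
  rw [h1, zero_smul, P.zero, one_smul]
  have e1 : kap l a (-1) = ((Real.sinh (l * ‖a‖) / ‖a‖ : ℝ) : ℂ) * (starRingEnd ℂ a) / 2 := by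
    simp [kap]
  have e2 : kap l a 0 = (Real.cosh (l * ‖a‖) : ℂ) := by simp [kap]
  have e3 : kap l a 1 = ((Real.sinh (l * ‖a‖) / ‖a‖ : ℝ) : ℂ) * a / 2 := by simp [kap]
  rw [e1, e2, e3]
  have h2 : ((a * P.chr n t).re : ℂ) = (a * P.chr n t + starRingEnd ℂ (a * P.chr n t)) / 2 :=
    Complex.re_eq_add_conj _
  rw [Complex.ofReal_add, Complex.ofReal_mul, h2, map_mul]
  ring

theorem chr_sum (P : Pairing Γ G) {ι : Type*} (s : Finset ι) (f : ι → Γ) (t : G) :
    P.chr (∑ i ∈ s, f i) t = ∏ i ∈ s, P.chr (f i) t := by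
  classical
  induction s using Finset.induction_on with
  | empty => simp [P.zero]
  | insert i s hi ih => rw [Finset.sum_insert hi, Finset.prod_insert hi, P.add, ih]

theorem integrable_chr (n : Γ) : Integrable (P.chr n) μ :=
  (P.cont n).integrable_of_hasCompactSupport (HasCompactSupport.of_compactSpace _)

theorem integral_prod_kap (A : Finset Γ) (hA : QI (A : Set Γ))
    (l : ℝ) (a : Γ → ℂ) :
    ∫ t, ∏ n ∈ A, (Real.cosh (l * ‖a n‖) + Real.sinh (l * ‖a n‖) / ‖a n‖ * (a n * P.chr n t).re)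
      ∂μ = ∏ n ∈ A, Real.cosh (l * ‖a n‖) := by
  classical
  have key : ∀ t : G, ((∏ n ∈ A, (Real.cosh (l * ‖a n‖) +
      Real.sinh (l * ‖a n‖) / ‖a n‖ * (a n * P.chr n t).re) : ℝ) : ℂ) =
      ∑ x ∈ Fintype.piFinset (fun _ : A => ({-1, 0, 1} : Finset ℤ)),
        (∏ n : A, kap l (a n) (x n)) * P.chr (∑ n : A, x n • (n : Γ)) t := by
    intro t
    rw [Complex.ofReal_prod, ← Finset.prod_coe_sort A]
    simp_rw [← kap_sum P]
    rw [Finset.prod_univ_sum]
    refine Finset.sum_congr rfl fun x _ => ?_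
    rw [Finset.prod_mul_distrib, chr_sum P]
  have h1 : ((∫ t, ∏ n ∈ A, (Real.cosh (l * ‖a n‖) +
      Real.sinh (l * ‖a n‖) / ‖a n‖ * (a n * P.chr n t).re) ∂μ : ℝ) : ℂ) =
      ((∏ n ∈ A, Real.cosh (l * ‖a n‖) : ℝ) : ℂ) := by
    rw [← integral_complex_ofReal]
    simp_rw [key]
    rw [integral_finsetSum _ (fun x _ => (integrable_chr μ P _).const_mul _)]
    simp_rw [integral_const_mul]
    rw [Finset.sum_eq_single (fun _ => (0 : ℤ))]
    · have h2 : ∑ n : A, (0 : ℤ) • (n : Γ) = 0 := by simp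
      rw [h2]
      have h3 : ∫ t, P.chr (0 : Γ) t ∂μ = 1 := by
        simp_rw [P.zero]
        simp
      rw [h3, mul_one, Complex.ofReal_prod, ← Finset.prod_coe_sort A]
      refine Finset.prod_congr rfl fun n _ => ?_
      simp [kap]
    · intro x hx hx0
      rw [Fintype.mem_piFinset] at hx
      have h2 : ∑ n : A, x n • (n : Γ) ≠ 0 := by
        intro h3
        apply hx0
        funext n
        set ξ : Γ → ℤ := fun m => if h : m ∈ A then x ⟨m, h⟩ else 0 with hξ
        have h4 : ∀ m : A, ξ m = x m := fun m => by rw [hξ]; simp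
        have h5 := hA A (le_refl _) ξ (fun m hm => by
          have := hx ⟨m, hm⟩
          rw [← h4 ⟨m, hm⟩] at this
          simpa using this) (by
          rw [← Finset.sum_coe_sort A]
          simp_rw [h4]
          exact h3) n n.2
        rw [h4] at h5
        exact h5
      rw [integral_chr μ P _ h2, mul_zero]
    · intro h
      exact absurd (by rw [Fintype.mem_piFinset]; intro _; simp) h
  exact_mod_cast h1

theorem mgf (A : Finset Γ) (hA : QI (A : Set Γ))
    (l : ℝ) (a : Γ → ℂ) :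
    ∫⁻ t, ENNReal.ofReal (Real.exp (l * (∑ n ∈ A, a n * P.chr n t).re)) ∂μ ≤
      ENNReal.ofReal (Real.exp (l ^ 2 * (∑ n ∈ A, ‖a n‖ ^ 2) / 2)) := by
  have hle : ∀ t : G, ∀ n ∈ A, Real.exp (l * (a n * P.chr n t).re) ≤
      Real.cosh (l * ‖a n‖) + Real.sinh (l * ‖a n‖) / ‖a n‖ * (a n * P.chr n t).re := by
    intro t n _
    refine exp_le_lin l _ _ (norm_nonneg _) ?_
    refine (Complex.abs_re_le_norm _).trans ?_
    rw [norm_mul, P.norm, mul_one]
  have hcont : Continuous fun t => ∏ n ∈ A, (Real.cosh (l * ‖a n‖) +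
      Real.sinh (l * ‖a n‖) / ‖a n‖ * (a n * P.chr n t).re) := by
    refine continuous_finsetProd _ fun n _ => ?_
    have := P.cont n
    fun_prop
  calc ∫⁻ t, ENNReal.ofReal (Real.exp (l * (∑ n ∈ A, a n * P.chr n t).re)) ∂μ
      ≤ ∫⁻ t, ENNReal.ofReal (∏ n ∈ A, (Real.cosh (l * ‖a n‖) +
          Real.sinh (l * ‖a n‖) / ‖a n‖ * (a n * P.chr n t).re)) ∂μ := by
        refine lintegral_mono fun t => ENNReal.ofReal_le_ofReal ?_
        rw [Complex.re_sum, Finset.mul_sum, Real.exp_sum]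
        exact Finset.prod_le_prod (fun _ _ => (Real.exp_pos _).le) (hle t)
    _ = ENNReal.ofReal (∫ t, ∏ n ∈ A, (Real.cosh (l * ‖a n‖) +
          Real.sinh (l * ‖a n‖) / ‖a n‖ * (a n * P.chr n t).re) ∂μ) := by
        rw [ofReal_integral_eq_lintegral_ofReal]
        · exact hcont.integrable_of_hasCompactSupport (HasCompactSupport.of_compactSpace _)
        · refine Filter.Eventually.of_forall fun t => ?_
          exact Finset.prod_nonneg fun n hn => (Real.exp_pos _).le.trans (hle t n hn)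
    _ ≤ _ := by
        refine ENNReal.ofReal_le_ofReal ?_
        rw [integral_prod_kap μ P A hA]
        have h1 : Real.exp (l ^ 2 * (∑ n ∈ A, ‖a n‖ ^ 2) / 2) =
            ∏ n ∈ A, Real.exp ((l * ‖a n‖) ^ 2 / 2) := by
          rw [← Real.exp_sum]
          congr 1
          rw [Finset.mul_sum, Finset.sum_div]
          exact Finset.sum_congr rfl fun n _ => by ring
        rw [h1]
        exact Finset.prod_le_prod (fun _ _ => (Real.cosh_pos _).le)
          fun n _ => Real.cosh_le_exp_half_sq _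

theorem term_le (k : ℕ) (R v c : ℝ) (hv : 0 < v) (hc : 0 < c) :
    (2 * R ^ 2 / c ^ 2) ^ k / k.factorial ≤
      ((2 / c ^ 2) ^ k * (2 * k).factorial / (k.factorial * (2 * k / v) ^ k)) *
        (Real.exp (Real.sqrt (2 * k / v) * R) + Real.exp (-Real.sqrt (2 * k / v) * R)) := by
  set L := Real.sqrt (2 * k / v) with hL
  have hL2 : L ^ 2 = 2 * k / v := Real.sq_sqrt (by positivity)
  have hL0 : 0 ≤ L := Real.sqrt_nonneg _
  have h1 := Real.pow_div_factorial_le_exp (L * |R|) (by positivity) (2 * k)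
  have h2 : Real.exp (L * |R|) ≤ Real.exp (L * R) + Real.exp (-L * R) := by
    rcases abs_cases R with ⟨h, _⟩ | ⟨h, _⟩
    · rw [h]; linarith [Real.exp_pos (-L * R)]
    · rw [h, show L * -R = -L * R by ring]; linarith [Real.exp_pos (L * R)]
  have h3 : (L * |R|) ^ (2 * k) = (2 * k / v) ^ k * (R ^ 2) ^ k := by
    rw [mul_pow, pow_mul L, hL2, pow_mul |R|, sq_abs]
  rw [h3] at h1
  have hpos : (0 : ℝ) < (2 * k / v) ^ k := by
    rcases Nat.eq_zero_or_pos k with h | h
    · subst h; simp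
    · have : (0 : ℝ) < k := by exact_mod_cast h
      positivity
  have h4 : (R ^ 2) ^ k ≤ (2 * k).factorial / (2 * k / v) ^ k *
      (Real.exp (L * R) + Real.exp (-L * R)) := by
    have h5 := h1.trans h2
    rw [div_le_iff₀ (by positivity)] at h5
    rw [div_mul_eq_mul_div, le_div_iff₀ hpos]
    linarith
  have h6 : (2 * R ^ 2 / c ^ 2) ^ k / k.factorial =
      (2 / c ^ 2) ^ k / k.factorial * (R ^ 2) ^ k := by
    rw [show 2 * R ^ 2 / c ^ 2 = 2 / c ^ 2 * R ^ 2 by ring, mul_pow]
    ring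
  rw [h6]
  calc (2 / c ^ 2) ^ k / k.factorial * (R ^ 2) ^ k
      ≤ (2 / c ^ 2) ^ k / k.factorial * ((2 * k).factorial / (2 * k / v) ^ k *
      (Real.exp (L * R) + Real.exp (-L * R))) := mul_le_mul_of_nonneg_left h4 (by positivity)
    _ = _ := by field_simp

theorem fact_le (k : ℕ) : ((2 * k).factorial : ℝ) ≤ k.factorial * (2 * k) ^ k := by
  have h1 := Nat.factorial_mul_ascFactorial k k
  have h2 := Nat.ascFactorial_le_pow_add k k
  have h3 : (2 * k).factorial ≤ k.factorial * (k + k) ^ k := by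
    rw [show 2 * k = k + k by ring, ← h1]
    exact Nat.mul_le_mul_left _ h2
  have h4 : ((2 * k).factorial : ℝ) ≤ k.factorial * ((k : ℝ) + k) ^ k := by exact_mod_cast h3
  rwa [show (k : ℝ) + k = 2 * k by ring] at h4

theorem moment (A : Finset Γ) (hA : QI (A : Set Γ))
    (a : Γ → ℂ) (c : ℝ) (hc : 0 < c) (hcs : 25 * ∑ n ∈ A, ‖a n‖ ^ 2 ≤ c ^ 2) :
    ∫⁻ t, ENNReal.ofReal (Real.exp (2 * (∑ n ∈ A, a n * P.chr n t).re ^ 2 / c ^ 2)) ∂μ ≤
      ENNReal.ofReal (Real.exp 1) := by
  set v := ∑ n ∈ A, ‖a n‖ ^ 2 with hv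
  have hv0 : 0 ≤ v := Finset.sum_nonneg fun _ _ => by positivity
  set R : G → ℝ := fun t => (∑ n ∈ A, a n * P.chr n t).re with hR
  have hRc : Continuous R := Complex.continuous_re.comp (poly_continuous P A a)
  rcases hv0.eq_or_lt with h | hvpos
  · have h1 : ∀ n ∈ A, a n = 0 := by
      intro n hn
      have := (Finset.sum_eq_zero_iff_of_nonneg (fun _ _ => by positivity)).1 h.symm n hn
      simpa using this
    have h2 : ∀ t, R t = 0 := by
      intro t
      rw [hR]
      simp only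
      rw [Finset.sum_eq_zero (fun n hn => by rw [h1 n hn, zero_mul])]
      rfl
    calc ∫⁻ t, ENNReal.ofReal (Real.exp (2 * R t ^ 2 / c ^ 2)) ∂μ
        = ∫⁻ _t, 1 ∂μ := by
          refine lintegral_congr fun t => ?_
          rw [h2]; simp
      _ ≤ _ := by
          rw [lintegral_one, measure_univ]
          rw [ENNReal.one_le_ofReal]
          exact Real.one_le_exp (by norm_num)
  · set q : ℝ := 2 * Real.exp 1 * v / c ^ 2 with hq
    have he := Real.exp_one_lt_d9
    have he' := Real.exp_one_gt_d9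
    have hq0 : 0 ≤ q := by positivity
    have hq1 : q ≤ 22 / 100 := by
      rw [hq, div_le_iff₀ (by positivity)]
      nlinarith
    set B : ℕ → ℝ := fun k => (2 / c ^ 2) ^ k * (2 * k).factorial / (k.factorial * (2 * k / v) ^ k)
      with hB
    have hpos : ∀ k : ℕ, (0 : ℝ) < (2 * k / v) ^ k := by
      intro k
      rcases Nat.eq_zero_or_pos k with h | h
      · subst h; simp
      · have : (0 : ℝ) < k := by exact_mod_cast h
        positivity
    have hB0 : ∀ k, 0 ≤ B k := fun k => by have := hpos k; positivity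
    have hBq : ∀ k, B k * (2 * Real.exp 1 ^ k) ≤ 2 * q ^ k := by
      intro k
      have h1 := fact_le k
      have h2 : q ^ k = (2 / c ^ 2) ^ k * v ^ k * Real.exp 1 ^ k := by
        rw [hq, show 2 * Real.exp 1 * v / c ^ 2 = 2 / c ^ 2 * v * Real.exp 1 by ring, mul_pow, mul_pow]
      have h3 : B k ≤ (2 / c ^ 2) ^ k * v ^ k := by
        have h4 : B k = (2 / c ^ 2) ^ k * ((2 * k).factorial / (k.factorial * (2 * k / v) ^ k)) := by
          rw [hB]; ring
        rw [h4]
        refine mul_le_mul_of_nonneg_left ?_ (by positivity)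
        have h5 := hpos k
        rw [div_le_iff₀ (by positivity)]
        have h6 : v ^ k * (k.factorial * (2 * k / v) ^ k) = k.factorial * (2 * (k : ℝ)) ^ k := by
          rw [div_pow]
          field_simp
        rw [h6]
        exact h1
      rw [h2]
      have h7 : (0 : ℝ) < Real.exp 1 ^ k := by positivity
      nlinarith
    have hterm : ∀ k : ℕ, ∫⁻ t, ENNReal.ofReal ((2 * R t ^ 2 / c ^ 2) ^ k / k.factorial) ∂μ ≤
        ENNReal.ofReal (2 * q ^ k) := by
      intro k
      set L := Real.sqrt (2 * k / v) with hL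
      have hL2 : L ^ 2 = 2 * k / v := Real.sq_sqrt (by positivity)
      have hm : ∀ s : ℝ, s ^ 2 = L ^ 2 →
          ∫⁻ t, ENNReal.ofReal (Real.exp (s * R t)) ∂μ ≤ ENNReal.ofReal (Real.exp 1 ^ k) := by
        intro s hs
        refine (mgf μ P A hA s a).trans (le_of_eq ?_)
        rw [← hv, hs, hL2, ← Real.exp_nat_mul]
        congr 2
        field_simp
      calc ∫⁻ t, ENNReal.ofReal ((2 * R t ^ 2 / c ^ 2) ^ k / k.factorial) ∂μ
          ≤ ∫⁻ t, ENNReal.ofReal (B k) * (ENNReal.ofReal (Real.exp (L * R t)) +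
              ENNReal.ofReal (Real.exp (-L * R t))) ∂μ := by
            refine lintegral_mono fun t => ?_
            rw [← ENNReal.ofReal_add (Real.exp_pos _).le (Real.exp_pos _).le,
              ← ENNReal.ofReal_mul (hB0 k)]
            exact ENNReal.ofReal_le_ofReal (term_le k (R t) v c hvpos hc)
        _ = ENNReal.ofReal (B k) * (∫⁻ t, ENNReal.ofReal (Real.exp (L * R t)) ∂μ +
              ∫⁻ t, ENNReal.ofReal (Real.exp (-L * R t)) ∂μ) := by
            rw [lintegral_const_mul _ (by fun_prop), lintegral_add_left (by fun_prop)]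
        _ ≤ ENNReal.ofReal (B k) * (ENNReal.ofReal (Real.exp 1 ^ k) +
              ENNReal.ofReal (Real.exp 1 ^ k)) :=
            mul_le_mul_right (add_le_add (hm L rfl) (hm (-L) (by ring))) _
        _ = ENNReal.ofReal (B k * (2 * Real.exp 1 ^ k)) := by
            rw [← ENNReal.ofReal_add (by positivity) (by positivity), ← ENNReal.ofReal_mul (hB0 k)]
            congr 1
            ring
        _ ≤ _ := ENNReal.ofReal_le_ofReal (hBq k)
    have hexp : ∀ y : ℝ, 0 ≤ y → ENNReal.ofReal (Real.exp y) =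
        ∑' k : ℕ, ENNReal.ofReal (y ^ k / k.factorial) := by
      intro y hy
      have h1 : Real.exp y = ∑' k : ℕ, y ^ k / k.factorial := by
        rw [Real.exp_eq_exp_ℝ, NormedSpace.exp_eq_tsum_div]
      rw [h1, ENNReal.ofReal_tsum_of_nonneg (fun k => by positivity)
        (Real.summable_pow_div_factorial y)]
    calc ∫⁻ t, ENNReal.ofReal (Real.exp (2 * R t ^ 2 / c ^ 2)) ∂μ
        = ∫⁻ t, ∑' k : ℕ, ENNReal.ofReal ((2 * R t ^ 2 / c ^ 2) ^ k / k.factorial) ∂μ :=
          lintegral_congr fun t => hexp _ (by positivity)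
      _ = ∑' k : ℕ, ∫⁻ t, ENNReal.ofReal ((2 * R t ^ 2 / c ^ 2) ^ k / k.factorial) ∂μ :=
          lintegral_tsum fun k => by fun_prop
      _ ≤ ∑' k : ℕ, ENNReal.ofReal (2 * q ^ k) := ENNReal.tsum_le_tsum hterm
      _ = ENNReal.ofReal (∑' k : ℕ, 2 * q ^ k) := by
          rw [ENNReal.ofReal_tsum_of_nonneg (fun k => by positivity)
            ((summable_geometric_of_lt_one hq0 (by linarith)).mul_left 2)]
      _ ≤ ENNReal.ofReal (Real.exp 1) := by
          refine ENNReal.ofReal_le_ofReal ?_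
          rw [tsum_mul_left, tsum_geometric_of_lt_one hq0 (by linarith)]
          have h1 : (0 : ℝ) < 1 - q := by linarith
          rw [← div_eq_mul_inv, div_le_iff₀ h1]
          nlinarith

theorem single (A : Finset Γ) (hA : QI (A : Set Γ))
    (a : Γ → ℂ) (c : ℝ) (hc : 0 < c) (hcs : 25 * ∑ n ∈ A, ‖a n‖ ^ 2 ≤ c ^ 2) :
    gauss μ (fun t => ∑ n ∈ A, a n * P.chr n t) c ≤ ENNReal.ofReal (Real.exp 1) := by
  have h1 := moment μ P A hA a c hc hcs
  have h2 := moment μ P A hA (fun n => -Complex.I * a n) c hc (by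
    simpa using hcs)
  have hI : ∀ t, (∑ n ∈ A, -Complex.I * a n * P.chr n t).re = (∑ n ∈ A, a n * P.chr n t).im := by
    intro t
    have : ∑ n ∈ A, -Complex.I * a n * P.chr n t = -Complex.I * ∑ n ∈ A, a n * P.chr n t := by
      rw [Finset.mul_sum]
      exact Finset.sum_congr rfl fun n _ => by ring
    rw [this]
    simp
  simp_rw [hI] at h2
  have hf := poly_continuous P A a
  have hre : Continuous fun t => (∑ n ∈ A, a n * P.chr n t).re := Complex.continuous_re.comp hf
  have him : Continuous fun t => (∑ n ∈ A, a n * P.chr n t).im := Complex.continuous_im.comp hf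
  calc gauss μ (fun t => ∑ n ∈ A, a n * P.chr n t) c
      ≤ ∫⁻ t, ENNReal.ofReal (1 / 2) *
          (ENNReal.ofReal (Real.exp (2 * (∑ n ∈ A, a n * P.chr n t).re ^ 2 / c ^ 2)) +
          ENNReal.ofReal (Real.exp (2 * (∑ n ∈ A, a n * P.chr n t).im ^ 2 / c ^ 2))) ∂μ := by
        refine lintegral_mono fun t => ?_
        rw [← ENNReal.ofReal_add (Real.exp_pos _).le (Real.exp_pos _).le,
          ← ENNReal.ofReal_mul (by norm_num)]
        refine ENNReal.ofReal_le_ofReal ?_
        set z := ∑ n ∈ A, a n * P.chr n t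
        have e1 : ‖z‖ ^ 2 / c ^ 2 = z.re ^ 2 / c ^ 2 + z.im ^ 2 / c ^ 2 := by
          rw [← Complex.normSq_eq_norm_sq, Complex.normSq_apply]
          ring
        rw [e1, Real.exp_add]
        have e2 : Real.exp (2 * z.re ^ 2 / c ^ 2) = Real.exp (z.re ^ 2 / c ^ 2) ^ 2 := by
          rw [← Real.exp_nat_mul]; congr 1; push_cast; ring
        have e3 : Real.exp (2 * z.im ^ 2 / c ^ 2) = Real.exp (z.im ^ 2 / c ^ 2) ^ 2 := by
          rw [← Real.exp_nat_mul]; congr 1; push_cast; ring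
        rw [e2, e3]
        nlinarith [sq_nonneg (Real.exp (z.re ^ 2 / c ^ 2) - Real.exp (z.im ^ 2 / c ^ 2))]
    _ = ENNReal.ofReal (1 / 2) *
          (∫⁻ t, ENNReal.ofReal (Real.exp (2 * (∑ n ∈ A, a n * P.chr n t).re ^ 2 / c ^ 2)) ∂μ +
          ∫⁻ t, ENNReal.ofReal (Real.exp (2 * (∑ n ∈ A, a n * P.chr n t).im ^ 2 / c ^ 2))
            ∂μ) := by
        rw [lintegral_const_mul _ (by fun_prop), lintegral_add_left (by fun_prop)]
    _ ≤ ENNReal.ofReal (1 / 2) * (ENNReal.ofReal (Real.exp 1) + ENNReal.ofReal (Real.exp 1)) :=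
        mul_le_mul_right (add_le_add h1 h2) _
    _ = ENNReal.ofReal (Real.exp 1) := by
        rw [← ENNReal.ofReal_add (by positivity) (by positivity),
          ← ENNReal.ofReal_mul (by norm_num)]
        congr 1
        ring


theorem qi_mono {Λ Λ' : Set Γ} (h : QI Λ) (h' : Λ' ⊆ Λ) : QI Λ' := fun A hA => h A (hA.trans h')

theorem union (k : ℕ) (hk : 0 < k) (Q : Fin k → Set Γ)
    (hQ : ∀ i, QI (Q i)) (A : Finset Γ)
    (hA : (A : Set Γ) ⊆ ⋃ i, Q i)
    (a : Γ → ℂ) (c : ℝ) (hc : 0 < c) (hcs : 25 * k * ∑ n ∈ A, ‖a n‖ ^ 2 < c ^ 2) :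
    gauss μ (fun t => ∑ n ∈ A, a n * P.chr n t) c ≤ ENNReal.ofReal (Real.exp 1) := by
  classical
  have hkR : (0 : ℝ) < k := by exact_mod_cast hk
  have hcls : ∀ n : Γ, ∃ i : Fin k, n ∈ A → n ∈ Q i := by
    intro n
    by_cases h : n ∈ A
    · obtain ⟨i, hi⟩ := Set.mem_iUnion.1 (hA (Finset.mem_coe.2 h))
      exact ⟨i, fun _ => hi⟩
    · exact ⟨⟨0, hk⟩, fun h' => absurd h' h⟩
  choose cls hcls using hcls
  set Ai : Fin k → Finset Γ := fun i => A.filter (fun n => cls n = i) with hAi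
  have hAiQ : ∀ i, QI (Ai i : Set Γ) := by
    intro i
    refine qi_mono (hQ i) ?_
    intro n hn
    have := Finset.mem_filter.1 (Finset.mem_coe.1 hn)
    rw [← this.2]
    exact hcls n this.1
  have hsplit : ∀ {β : Type} [AddCommMonoid β] (g : Γ → β),
      ∑ n ∈ A, g n = ∑ i : Fin k, ∑ n ∈ Ai i, g n := by
    intro β _ g
    exact (Finset.sum_fiberwise A cls g).symm
  set v : Fin k → ℝ := fun i => ∑ n ∈ Ai i, ‖a n‖ ^ 2 with hv
  have hv0 : ∀ i, 0 ≤ v i := fun i => Finset.sum_nonneg fun _ _ => by positivity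
  have hvs : ∑ n ∈ A, ‖a n‖ ^ 2 = ∑ i, v i := hsplit _
  -- the weights
  have hsq : (∑ i, Real.sqrt (v i)) ^ 2 ≤ k * ∑ i, v i := by
    have := sq_sum_le_card_mul_sum_sq (s := (Finset.univ : Finset (Fin k)))
      (f := fun i => Real.sqrt (v i))
    simp only [Finset.card_univ, Fintype.card_fin] at this
    rwa [Finset.sum_congr rfl (fun i _ => Real.sq_sqrt (hv0 i))] at this
  have hs0 : 0 ≤ ∑ i, Real.sqrt (v i) := Finset.sum_nonneg fun _ _ => Real.sqrt_nonneg _
  have hlt : 5 * ∑ i, Real.sqrt (v i) < c := by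
    rw [hvs] at hcs
    nlinarith
  set δ : ℝ := (c - 5 * ∑ i, Real.sqrt (v i)) / k with hδ
  have hδ0 : 0 < δ := div_pos (by linarith) hkR
  set w : Fin k → ℝ := fun i => 5 * Real.sqrt (v i) + δ with hw
  have hw0 : ∀ i, 0 < w i := fun i => by
    have := Real.sqrt_nonneg (v i)
    simp only [hw]
    linarith
  have hwc : ∑ i, w i = c := by
    simp only [hw]
    rw [Finset.sum_add_distrib, ← Finset.mul_sum, Finset.sum_const, Finset.card_univ, Fintype.card_fin,
      nsmul_eq_mul, hδ, mul_div_cancel₀ _ hkR.ne']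
    ring
  have hi : ∀ i, gauss μ (fun t => ∑ n ∈ Ai i, a n * P.chr n t) (w i) ≤
      ENNReal.ofReal (Real.exp 1) := by
    intro i
    refine single μ P (Ai i) (hAiQ i) a (w i) (hw0 i) ?_
    show 25 * v i ≤ w i ^ 2
    have h1 := Real.sqrt_nonneg (v i)
    have h2 := Real.sq_sqrt (hv0 i)
    simp only [hw]
    nlinarith
  have hcont : ∀ i, Continuous fun t => ∑ n ∈ Ai i, a n * P.chr n t := fun i => poly_continuous P _ a
  calc gauss μ (fun t => ∑ n ∈ A, a n * P.chr n t) c
      ≤ ∫⁻ t, ∑ i : Fin k, ENNReal.ofReal (w i / c) *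
          ENNReal.ofReal (Real.exp (‖∑ n ∈ Ai i, a n * P.chr n t‖ ^ 2 / (w i) ^ 2)) ∂μ := by
        refine lintegral_mono fun t => ?_
        have e1 : ∑ i : Fin k, ENNReal.ofReal (w i / c) *
          ENNReal.ofReal (Real.exp (‖∑ n ∈ Ai i, a n * P.chr n t‖ ^ 2 / (w i) ^ 2)) =
          ENNReal.ofReal (∑ i : Fin k, (w i / c) *
          Real.exp (‖∑ n ∈ Ai i, a n * P.chr n t‖ ^ 2 / (w i) ^ 2)) := by
          rw [ENNReal.ofReal_sum_of_nonneg (fun i _ => by have := hw0 i; positivity)]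
          exact Finset.sum_congr rfl fun i _ => (ENNReal.ofReal_mul (by have := hw0 i; positivity)).symm
        rw [e1]
        refine ENNReal.ofReal_le_ofReal ?_
        have e2 := convexOn_exp.map_sum_le (t := (Finset.univ : Finset (Fin k)))
          (w := fun i => w i / c)
          (p := fun i => ‖∑ n ∈ Ai i, a n * P.chr n t‖ ^ 2 / (w i) ^ 2)
          (fun i _ => by have := hw0 i; positivity)
          (by rw [← Finset.sum_div, hwc, div_self hc.ne']) (fun _ _ => Set.mem_univ _)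
        simp only [smul_eq_mul] at e2
        refine le_trans (Real.exp_le_exp.2 ?_) e2
        have e3 : ‖∑ n ∈ A, a n * P.chr n t‖ ≤ ∑ i : Fin k, ‖∑ n ∈ Ai i, a n * P.chr n t‖ := by
          rw [hsplit]
          exact norm_sum_le _ _
        have e4 : (∑ i : Fin k, ‖∑ n ∈ Ai i, a n * P.chr n t‖) ^ 2 ≤
            (∑ i, w i) * ∑ i : Fin k, ‖∑ n ∈ Ai i, a n * P.chr n t‖ ^ 2 / w i := by
          refine Finset.sum_sq_le_sum_mul_sum_of_sq_le_mul Finset.univ (fun i _ => (hw0 i).le)
            (fun i _ => by have := hw0 i; positivity) (fun i _ => le_of_eq ?_)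
          have := (hw0 i).ne'
          field_simp
        have e5 : ‖∑ n ∈ A, a n * P.chr n t‖ ^ 2 ≤
            c * ∑ i : Fin k, ‖∑ n ∈ Ai i, a n * P.chr n t‖ ^ 2 / w i := by
          rw [hwc] at e4
          exact (pow_le_pow_left₀ (norm_nonneg _) e3 2).trans e4
        calc ‖∑ n ∈ A, a n * P.chr n t‖ ^ 2 / c ^ 2
            ≤ (c * ∑ i : Fin k, ‖∑ n ∈ Ai i, a n * P.chr n t‖ ^ 2 / w i) / c ^ 2 := by gcongr
          _ = _ := by
              rw [Finset.mul_sum, Finset.sum_div]
              refine Finset.sum_congr rfl fun i _ => ?_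
              have := (hw0 i).ne'
              field_simp
    _ = ∑ i : Fin k, ENNReal.ofReal (w i / c) *
          gauss μ (fun t => ∑ n ∈ Ai i, a n * P.chr n t) (w i) := by
        rw [lintegral_finsetSum]
        · refine Finset.sum_congr rfl fun i _ => ?_
          rw [lintegral_const_mul]
          · rfl
          · have := (hcont i).norm
            fun_prop
        · intro i _
          have := (hcont i).norm
          fun_prop
    _ ≤ ∑ i : Fin k, ENNReal.ofReal (w i / c) * ENNReal.ofReal (Real.exp 1) :=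
        Finset.sum_le_sum fun i _ => mul_le_mul_right (hi i) _
    _ = ENNReal.ofReal (Real.exp 1) := by
        rw [← Finset.sum_mul, ← ENNReal.ofReal_sum_of_nonneg (fun i _ => by have := hw0 i; positivity),
          ← Finset.sum_div, hwc, div_self hc.ne', ENNReal.ofReal_one, one_mul]

end Pool.Agent.H46.SG
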