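import Pool.Graph.R_seed8.H337R3.Sid2

set_option autoImplicit false
set_option linter.unusedSectionVars false

/-!
# Partition into independent sets: the sharp number of classes

Let `Λ` be a set of elements of order dividing `m` (`m ≥ 2`) of an abelian group with
`|A| ≤ k ⌈log_m |⟨A⟩|⌉` for all finite `A ⊆ Λ`. Then `Λ` is a union of `k` sets without nontrivial relations
`∑ ξ_x x = 0` whose coefficients are zero or prime to `m`.
-/

namespace Pool.Agent.H46.SG

open Finset Pool.Agent.H337R3.Sid

universe u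

/-- One step, with the non-strict inequality. -/
theorem peel {ι : Type*} [DecidableEq ι] {q : ℕ} [Fact q.Prime] {V : Type*} [AddCommGroup V]
    [Module (ZMod q) V] [Module.Finite (ZMod q) V]
    (v : ι → V) (D : Finset ι) (hD : D.Nonempty) (k : ℕ)
    (hk : (D.card : ℤ) ≤ k * rk q v D) :
    ∃ D' ⊂ D, ∃ c : ι → ℕ, (∀ x ∈ D \ D', c x < k) ∧ ∀ i < k, ∀ ξ : ι → ℤ,
      ∑ x ∈ ((D \ D').filter (fun x => i = c x)) ∪ D', ((ξ x : ℤ) : ZMod q) • v x = 0 →
      ∀ x ∈ (D \ D').filter (fun x => i = c x), ((ξ x : ℤ) : ZMod q) = 0 := by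
  -- the maximiser
  obtain ⟨D', hss, hmax⟩ : ∃ D' ⊂ D, ∀ P ∈ D.powerset,
      (P.card : ℤ) - k * rk q v P ≤ (D'.card : ℤ) - k * rk q v D' := by
    obtain ⟨D', hD', hmax⟩ := Finset.exists_max_image D.powerset
      (fun P => (P.card : ℤ) - k * rk q v P) ⟨∅, Finset.empty_mem_powerset D⟩
    rw [Finset.mem_powerset] at hD'
    by_cases hne : D' = D
    · subst hne
      refine ⟨∅, Finset.empty_ssubset.2 hD, fun P hP => ?_⟩
      have h1 := hmax P hP
      simp only [Finset.card_empty, rk_empty, Nat.cast_zero, mul_zero, sub_zero]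
      linarith
    · exact ⟨D', Finset.ssubset_iff_subset_ne.mpr ⟨hD', hne⟩, hmax⟩
  have hD' := hss.1
  obtain ⟨c, hc1, hc2⟩ := partition (fun X => rk q v (X ∪ D') - rk q v D')
    (by
      intro P Q
      have h1 := rk_sub (q := q) v (P ∪ D') (Q ∪ D')
      have h2 : (P ∪ D') ∪ (Q ∪ D') = (P ∪ Q) ∪ D' := by
        ext y; simp only [Finset.mem_union]; tauto
      have h3 : (P ∪ D') ∩ (Q ∪ D') = (P ∩ Q) ∪ D' := by
        ext y; simp only [Finset.mem_union, Finset.mem_inter]; tauto
      rw [h2, h3] at h1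
      show rk q v (P ∪ Q ∪ D') - rk q v D' + (rk q v (P ∩ Q ∪ D') - rk q v D') ≤ _
      linarith)
    (by
      intro P Q hPQ
      have := rk_mono (q := q) v (P ∪ D') (Q ∪ D') (Finset.union_subset_union_left hPQ)
      show rk q v (P ∪ D') - rk q v D' ≤ rk q v (Q ∪ D') - rk q v D'
      linarith)
    (by simp)
    (by
      intro P
      have h1 := rk_sub (q := q) v P D'
      have h2 := rk_le_card (q := q) v P
      have h3 := rk_nonneg (q := q) v (P ∩ D')
      show rk q v (P ∪ D') - rk q v D' ≤ P.card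
      linarith) k (D \ D') (by
      intro X hX
      have h1 := hmax (X ∪ D') (Finset.mem_powerset.mpr
        (Finset.union_subset (hX.trans Finset.sdiff_subset) hD'))
      have h2 : (X ∪ D').card = X.card + D'.card := by
        rw [Finset.card_union_of_disjoint]
        rw [Finset.disjoint_left]
        intro y hy
        exact (Finset.mem_sdiff.mp (hX hy)).2
      rw [h2] at h1
      push_cast at h1
      show (X.card : ℤ) ≤ k * (rk q v (X ∪ D') - rk q v D')
      linarith)
  refine ⟨D', hss, c, hc1, ?_⟩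
  intro i hi ξ hrel
  have h1 := hc2 i hi
  have h2 : rk q v ((D \ D').filter (fun x => i = c x) ∪ D') =
      ((D \ D').filter (fun x => i = c x)).card + rk q v D' := by
    have : rk q v ((D \ D').filter (fun x => i = c x) ∪ D') - rk q v D' =
      ((D \ D').filter (fun x => i = c x)).card := h1
    linarith
  refine rk_drop v _ D' ?_ ξ hrel h2
  rw [Finset.disjoint_left]
  intro y hy
  exact (Finset.mem_sdiff.mp (Finset.mem_filter.mp hy).1).2

section Chain

variable {Γ : Type u} [AddCommGroup Γ] [DecidableEq Γ]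

/-- zero or prime to `m` -/
def U (m : ℕ) (z : ℤ) : Prop := z = 0 ∨ IsCoprime z m

theorem U.zero (m : ℕ) : U m 0 := Or.inl rfl

/-- The size condition: `|X| ≤ k ⌈log_m |⟨X⟩|⌉`. -/
def Small (m k : ℕ) (Λ : Set Γ) : Prop :=
  ∀ X : Finset Γ, (X : Set Γ) ⊆ Λ → X.card ≤ k * Nat.clog m (Nat.card (AddSubgroup.closure (X : Set Γ)))

theorem step (l : List ℕ) (hl : ∀ q ∈ l, q.Prime) (hl2 : 2 ≤ l.prod) (k : ℕ)
    (D : Finset Γ) (hD : D.Nonempty) (hexp : ∀ x ∈ D, l.prod • x = 0)
    (hsize : D.card ≤ k * Nat.clog l.prod (Nat.card (AddSubgroup.closure (D : Set Γ)))) :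
    ∃ D' ⊂ D, ∃ c : Γ → ℕ, (∀ x ∈ D \ D', c x < k) ∧
      ∀ i < k, ∀ ξ : Γ → ℤ, (∀ x, U l.prod (ξ x)) →
      ∑ x ∈ ((D \ D').filter (fun x => i = c x)) ∪ D', ξ x • x = 0 →
      ∀ x ∈ (D \ D').filter (fun x => i = c x), ξ x = 0 := by
  have hprod : 0 < l.prod := List.prod_pos (fun q hq => (hl q hq).pos)
  set M := AddSubgroup.closure (D : Set Γ) with hM
  have hMfin : Finite M := closure_finite l.prod hprod D hexp
  have hMcard : Nat.card M ≤ (l.map fun q => Nat.card (M ⧸ mulRange M q)).prod := by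
    apply card_le_prod l M
    intro m
    ext
    simp only [AddSubgroup.coe_nsmul, ZeroMemClass.coe_zero]
    exact closure_exp l.prod _ hexp m m.2
  have hDcard : 0 < D.card := Finset.card_pos.mpr hD
  -- choose the prime with the largest rank
  have hlne : l ≠ [] := by
    rintro rfl
    simp at hl2
  have hcardq : ∀ q ∈ l, ∃ d : ℕ, Nat.card (M ⧸ mulRange M q) = q ^ d := by
    intro q hq
    have : Fact q.Prime := ⟨hl q hq⟩
    have : Finite (M ⧸ mulRange M q) := inferInstance
    have : Module.Finite (ZMod q) (M ⧸ mulRange M q) := Module.Finite.of_finite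
    exact ⟨_, by rw [Module.natCard_eq_pow_finrank (K := ZMod q), Nat.card_zmod]⟩
  choose! d hd using hcardq
  obtain ⟨q, hq, hmax⟩ : ∃ q ∈ l, ∀ q' ∈ l, d q' ≤ d q := by
    have hne : l.toFinset.Nonempty := by
      rw [List.toFinset_nonempty_iff]; exact hlne
    obtain ⟨q, hq, hmax⟩ := Finset.exists_max_image l.toFinset d hne
    exact ⟨q, List.mem_toFinset.mp hq, fun q' hq' => hmax q' (List.mem_toFinset.mpr hq')⟩
  have hMle : Nat.card M ≤ l.prod ^ d q := by
    refine hMcard.trans ?_
    have h1 : (l.map fun q => Nat.card (M ⧸ mulRange M q)).prod ≤ (l.map fun q' => q' ^ d q).prod := by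
      apply List.prod_le_prod'
      intro p hp
      rw [hd p hp]
      exact Nat.pow_le_pow_right (hl p hp).pos (hmax p hp)
    refine h1.trans (le_of_eq ?_)
    exact List.prod_hom l (powMonoidHom (α := ℕ) (d q))
  have : Fact q.Prime := ⟨hl q hq⟩
  have : Finite (M ⧸ mulRange M q) := inferInstance
  have : Module.Finite (ZMod q) (M ⧸ mulRange M q) := Module.Finite.of_finite
  have hspan : Submodule.span (ZMod q) (vec M q '' (D : Set Γ)) =
      (⊤ : Submodule (ZMod q) (M ⧸ mulRange M q)) := by
    rw [eq_top_iff]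
    rintro y -
    obtain ⟨⟨m, hm⟩, rfl⟩ := QuotientAddGroup.mk_surjective y
    induction hm using AddSubgroup.closure_induction with
    | mem x hx =>
      apply Submodule.subset_span
      exact ⟨x, hx, vec_of_mem M q x (AddSubgroup.subset_closure hx)⟩
    | zero => exact Submodule.zero_mem _
    | add x y hx hy h1 h2 => exact Submodule.add_mem _ h1 h2
    | neg x hx h1 => exact Submodule.neg_mem _ h1
  have hrk : rk q (vec M q) D = d q := by
    have h1 : Nat.card (M ⧸ mulRange M q) = q ^ Module.finrank (ZMod q) (M ⧸ mulRange M q) := by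
      rw [Module.natCard_eq_pow_finrank (K := ZMod q), Nat.card_zmod]
    rw [hd q hq] at h1
    have h2 : d q = Module.finrank (ZMod q) (M ⧸ mulRange M q) :=
      Nat.pow_right_injective (hl q hq).two_le h1
    unfold rk
    rw [hspan, finrank_top, h2]
  have h1 : D.card ≤ k * d q := by
    have h2 : Nat.clog l.prod (Nat.card M) ≤ d q :=
      (Nat.clog_le_iff_le_pow (by omega)).2 hMle
    exact hsize.trans (Nat.mul_le_mul_left k h2)
  obtain ⟨D', hss, c, hc1, hc2⟩ := peel (q := q) (vec M q) D hD k (by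
    rw [hrk]
    exact_mod_cast h1)
  refine ⟨D', hss, c, hc1, ?_⟩
  intro i hi ξ hξ hrel x hx
  set B := (D \ D').filter (fun x => i = c x) with hB
  have hsubM : ∀ y ∈ B ∪ D', y ∈ M := by
    intro y hy
    apply AddSubgroup.subset_closure
    rcases Finset.mem_union.mp hy with h | h
    · exact Finset.mem_coe.mpr (Finset.sdiff_subset (Finset.mem_filter.mp h).1)
    · exact Finset.mem_coe.mpr (hss.1 h)
  have hrel' : ∑ y ∈ B ∪ D', ((ξ y : ℤ) : ZMod q) • vec M q y = 0 := by
    have h3 : ∑ y ∈ (B ∪ D').attach, ξ y.1 • (⟨y.1, hsubM y.1 y.2⟩ : M) = 0 := by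
      ext
      rw [AddSubgroup.val_finsetSum]
      simp only [AddSubgroup.coe_zsmul, ZeroMemClass.coe_zero]
      rw [← hrel, ← Finset.sum_attach (B ∪ D')]
    have h4 := congrArg (QuotientAddGroup.mk' (mulRange M q)) h3
    rw [map_sum, map_zero] at h4
    rw [← Finset.sum_attach, ← h4]
    apply Finset.sum_congr rfl
    intro y _
    rw [map_zsmul, vec_of_mem M q y.1 (hsubM y.1 y.2), Int.cast_smul_eq_zsmul]
    rfl
  have h5 := hc2 i hi ξ hrel' x hx
  rcases hξ x with h | h
  · exact h
  · exfalso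
    rw [ZMod.intCast_zmod_eq_zero_iff_dvd] at h5
    have h6 : (q : ℤ) ∣ (l.prod : ℤ) := by exact_mod_cast List.dvd_prod hq
    have h7 := h.isUnit_of_dvd' h5 h6
    rw [Int.isUnit_iff] at h7
    have h8 := (hl q hq).two_le
    omega

/-- `D` can be coloured with `k` colours so that every class is independent. -/
def Col (m k : ℕ) (D : Finset Γ) (c : Γ → ℕ) : Prop :=
  (∀ x ∈ D, c x < k) ∧ ∀ i < k, ∀ ξ : Γ → ℤ, (∀ x, U m (ξ x)) →
    ∑ x ∈ D.filter (fun x => i = c x), ξ x • x = 0 → ∀ x ∈ D.filter (fun x => i = c x), ξ x = 0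

theorem exists_col (l : List ℕ) (hl : ∀ q ∈ l, q.Prime) (hl2 : 2 ≤ l.prod) (k : ℕ)
    (Λ : Set Γ) (hexp : ∀ x ∈ Λ, l.prod • x = 0) (hΛ : Small l.prod k Λ) (m : ℕ) :
    ∀ D : Finset Γ, D.card = m → (D : Set Γ) ⊆ Λ → ∃ c : Γ → ℕ, Col l.prod k D c := by
  induction m using Nat.strong_induction_on with
  | _ m ih =>
    intro D hm hD
    by_cases hne : D.Nonempty
    · obtain ⟨D', hss, c, hc1, hc2⟩ := step l hl hl2 k D hne
        (fun x hx => hexp x (hD (Finset.mem_coe.mpr hx))) (hΛ D hD)
      obtain ⟨c', hc'1, hc'2⟩ := ih D'.card (by rw [← hm]; exact Finset.card_lt_card hss) D' rfl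
        (fun x hx => hD (Finset.mem_coe.mpr (hss.1 (Finset.mem_coe.mp hx))))
      refine ⟨fun x => if x ∈ D' then c' x else c x, ?_, ?_⟩
      · intro x hx
        by_cases h : x ∈ D'
        · simp only [h, if_true]; exact hc'1 x h
        · simp only [h, if_false]; exact hc1 x (Finset.mem_sdiff.mpr ⟨hx, h⟩)
      · intro i hi ξ hξ hrel
        have hsplit : D.filter (fun x => i = if x ∈ D' then c' x else c x) =
            (D \ D').filter (fun x => i = c x) ∪ D'.filter (fun x => i = c' x) := by
          ext y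
          simp only [Finset.mem_filter, Finset.mem_union, Finset.mem_sdiff]
          by_cases h : y ∈ D'
          · simp [h, hss.1 h]
          · simp [h]
        rw [hsplit] at hrel ⊢
        have hdis : Disjoint ((D \ D').filter (fun x => i = c x)) (D'.filter (fun x => i = c' x)) := by
          rw [Finset.disjoint_left]
          intro y hy hy'
          exact (Finset.mem_sdiff.mp (Finset.mem_filter.mp hy).1).2 (Finset.mem_filter.mp hy').1
        have hdis2 : Disjoint ((D \ D').filter (fun x => i = c x)) D' := by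
          rw [Finset.disjoint_left]
          intro y hy hy'
          exact (Finset.mem_sdiff.mp (Finset.mem_filter.mp hy).1).2 hy'
        let ξ' : Γ → ℤ := fun x => if x ∈ D' ∧ i ≠ c' x then 0 else ξ x
        have hξ' : ∀ x, U l.prod (ξ' x) := by
          intro x
          by_cases h : x ∈ D' ∧ i ≠ c' x
          · left; exact if_pos h
          · have : ξ' x = ξ x := if_neg h
            rw [this]; exact hξ x
        have hB : ∀ x ∈ (D \ D').filter (fun x => i = c x), ξ' x = ξ x := by
          intro x hx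
          apply if_neg
          rintro ⟨h, -⟩
          exact (Finset.disjoint_left.mp hdis2 hx) h
        have hrel' : ∑ x ∈ ((D \ D').filter (fun x => i = c x)) ∪ D', ξ' x • x = 0 := by
          rw [← hrel, Finset.sum_union hdis, Finset.sum_union hdis2]
          congr 1
          · exact Finset.sum_congr rfl (fun x hx => by rw [hB x hx])
          · rw [Finset.sum_filter]
            apply Finset.sum_congr rfl
            intro x hx
            by_cases h : i = c' x
            · rw [if_pos h]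
              have : ξ' x = ξ x := if_neg (fun hh => hh.2 h)
              rw [this]
            · rw [if_neg h]
              have : ξ' x = 0 := if_pos ⟨hx, h⟩
              rw [this, zero_smul]
        have hz := hc2 i hi ξ' hξ' hrel'
        have hzB : ∀ x ∈ (D \ D').filter (fun x => i = c x), ξ x = 0 := by
          intro x hx
          rw [← hB x hx]; exact hz x hx
        have hrel2 : ∑ x ∈ D'.filter (fun x => i = c' x), ξ x • x = 0 := by
          rw [Finset.sum_union hdis] at hrel
          rw [Finset.sum_eq_zero (fun x hx => by rw [hzB x hx, zero_smul]), zero_add] at hrel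
          exact hrel
        have hz2 := hc'2 i hi ξ hξ hrel2
        intro x hx
        rcases Finset.mem_union.mp hx with h | h
        · exact hzB x h
        · exact hz2 x h
    · rw [Finset.not_nonempty_iff_eq_empty] at hne
      subst hne
      exact ⟨fun _ => 0, fun x hx => absurd hx (Finset.notMem_empty x), fun i _ ξ _ _ x hx => by
        simp at hx⟩

omit [DecidableEq Γ] in
/-- Independence: no nontrivial relations with coefficients zero or prime to `m`. -/
def Ind (m : ℕ) (Λ : Set Γ) : Prop :=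
  ∀ A : Finset Γ, (A : Set Γ) ⊆ Λ → ∀ ξ : Γ → ℤ, (∀ x ∈ A, U m (ξ x)) →
    ∑ x ∈ A, ξ x • x = 0 → ∀ x ∈ A, ξ x = 0

omit [DecidableEq Γ] in
/-- **Main combinatorial theorem.** -/
theorem finite_union {m : ℕ} (hm : 2 ≤ m) (k : ℕ)
    (Λ : Set Γ) (hexp : ∀ x ∈ Λ, m • x = 0) (hΛ : Small m k Λ) :
    ∃ Q : Fin k → Set Γ, (∀ i, Ind m (Q i)) ∧ Λ = ⋃ i, Q i := by
  classical
  have hpr : m.primeFactorsList.prod = m := Nat.prod_primeFactorsList (by omega)
  have hl : ∀ q ∈ m.primeFactorsList, q.Prime := fun q hq => Nat.prime_of_mem_primeFactorsList hq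
  -- no colours: `Λ` is empty
  rcases Nat.eq_zero_or_pos k with hk | hk
  · subst hk
    have hemp : Λ = ∅ := by
      by_contra hne
      obtain ⟨x, hx⟩ := Set.nonempty_iff_ne_empty.2 hne
      have h1 := hΛ {x} (by simpa using hx)
      simp at h1
    exact ⟨fun i => i.elim0, fun i => i.elim0, by rw [hemp]; simp⟩
  -- the local colourings
  have hloc : ∀ D : Finset Γ, ∃ c : Γ → Fin k, ∀ E ⊆ D, (E : Set Γ) ⊆ Λ →
      ∀ i, (∀ x ∈ E, c x = i) → ∀ ξ : Γ → ℤ, (∀ x ∈ E, U m (ξ x)) →
        ∑ x ∈ E, ξ x • x = 0 → ∀ x ∈ E, ξ x = 0 := by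
    intro D
    set D₀ := D.filter (fun x => x ∈ Λ) with hD₀
    obtain ⟨c, hc1, hc2⟩ := exists_col m.primeFactorsList hl (by rw [hpr]; exact hm) k Λ
      (by rw [hpr]; exact hexp) (by rw [hpr]; exact hΛ) D₀.card D₀ rfl (by
      intro x hx
      exact (Finset.mem_filter.mp (Finset.mem_coe.mp hx)).2)
    refine ⟨fun x => if h : c x < k then ⟨c x, h⟩ else ⟨0, hk⟩, ?_⟩
    intro E hE hEΛ i hi ξ hξ hrel x hx
    have hED : E ⊆ D₀.filter (fun x => (i : ℕ) = c x) := by
      intro y hy
      rw [Finset.mem_filter]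
      have hy0 : y ∈ D₀ := Finset.mem_filter.mpr ⟨hE hy, hEΛ (Finset.mem_coe.mpr hy)⟩
      refine ⟨hy0, ?_⟩
      have h1 := hi y hy
      have h2 : c y < k := hc1 y hy0
      have h3 : (⟨c y, h2⟩ : Fin k) = i := by
        rw [← h1]
        exact (dif_pos h2).symm
      rw [← h3]
    let ξ' : Γ → ℤ := fun y => if y ∈ E then ξ y else 0
    have h1 := hc2 i i.2 ξ' (by
      intro y
      rw [hpr]
      by_cases h : y ∈ E
      · have : ξ' y = ξ y := if_pos h
        rw [this]; exact hξ y h
      · left; exact if_neg h) (by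
      rw [← hrel]
      symm
      rw [← Finset.sum_subset hED]
      · apply Finset.sum_congr rfl
        intro y hy
        have : ξ' y = ξ y := if_pos hy
        rw [this]
      · intro y _ hy
        have : ξ' y = 0 := if_neg hy
        rw [this, zero_smul]) x (hED hx)
    have h2 : ξ' x = ξ x := if_pos hx
    rw [← h2]; exact h1
  choose g hg using hloc
  obtain ⟨χ, hχ⟩ := Finset.rado_selection (β := fun _ : Γ => Fin k) g
  refine ⟨fun i => {x | x ∈ Λ ∧ χ x = i}, ?_, ?_⟩
  · intro i A hA ξ hξ hrel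
    obtain ⟨t, ht, htx⟩ := hχ A
    refine hg t A ht (fun x hx => (hA hx).1) i ?_ ξ hξ hrel
    intro x hx
    rw [← htx x hx]
    exact (hA (Finset.mem_coe.mpr hx)).2
  · ext x
    simp

end Chain

end Pool.Agent.H46.SG
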