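import Pool.Agent.H46.SG.Main

set_option autoImplicit false
set_option linter.unusedSectionVars false

/-!
# Two instances: all continuous characters of a compact abelian group; the characters of `(ℤ/m)^ℕ`
-/

namespace Pool.Agent.H46.SG

open MeasureTheory TopologicalSpace
open Pool.Agent.H337R3.Sid (QI)

/-- the group of continuous characters -/
def contSub (G : Type*) [AddCommGroup G] [TopologicalSpace G] : AddSubgroup (AddChar G Circle) where
  carrier := {χ | Continuous χ}
  zero_mem' := by
    show Continuous (fun _ : G => (1 : Circle))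
    exact continuous_const
  add_mem' := by
    intro a b ha hb
    show Continuous (fun t : G => a t * b t)
    exact Continuous.mul ha hb
  neg_mem' := by
    intro a ha
    have h : (⇑(-a) : G → Circle) = fun t => (a t)⁻¹ := by
      funext t
      rw [AddChar.neg_apply']
    show Continuous ⇑(-a)
    rw [h]
    exact Continuous.inv ha

/-- the continuous characters of a compact group -/
noncomputable def charPairing (G : Type*) [AddCommGroup G] [TopologicalSpace G] :
    Pairing (contSub G) G where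
  chr χ t := ((χ : AddChar G Circle) t : ℂ)
  zero t := by
    rw [AddSubgroup.coe_zero, AddChar.zero_apply, Circle.coe_one]
  add m n t := by
    rw [AddSubgroup.coe_add, AddChar.add_apply, Circle.coe_mul]
  add' n s t := by
    rw [AddChar.map_add_eq_mul, Circle.coe_mul]
  norm n t := Circle.norm_coe _
  cont n := by
    have h : Continuous (n : AddChar G Circle) := n.2
    exact continuous_subtype_val.comp h
  ne n hn := by
    by_contra hcon
    push Not at hcon
    apply hn
    ext t
    have := hcon t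
    rw [this]
    simp

/-- all elements -/
def topPairing {Γ G : Type*} [AddCommGroup Γ] [AddCommGroup G] [TopologicalSpace G] (P : Pairing Γ G) :
    Pairing (⊤ : AddSubgroup Γ) G where
  chr x := P.chr x
  zero t := P.zero t
  add m n t := P.add m n t
  add' n s t := P.add' n s t
  norm n t := P.norm n t
  cont n := P.cont n
  ne n hn := P.ne n (fun h => hn (Subtype.ext h))

/-! ### subgroups -/

section Transfer

variable {Γ G : Type*} [AddCommGroup Γ] [MeasurableSpace G]

/-- no nontrivial relations with coefficients in `p` -/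
def IndP (p : ℤ → Prop) (Λ : Set Γ) : Prop :=
  ∀ A : Finset Γ, (A : Set Γ) ⊆ Λ → ∀ ξ : Γ → ℤ, (∀ x ∈ A, p (ξ x)) →
    ∑ x ∈ A, ξ x • x = 0 → ∀ x ∈ A, ξ x = 0

theorem indP_image {p : ℤ → Prop} (S : AddSubgroup Γ) {Q : Set S} (h : IndP p Q) :
    IndP p (Subtype.val '' Q) := by
  classical
  intro A hA ξ hξ hrel x hx
  have hAS : ∀ x ∈ A, x ∈ S := by
    intro y hy
    obtain ⟨z, _, rfl⟩ := hA (Finset.mem_coe.2 hy)
    exact z.2
  have h1 := h (A.subtype (· ∈ S)) (by
    intro y hy
    have hy' := Finset.mem_subtype.1 (Finset.mem_coe.1 hy)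
    obtain ⟨z, hz, hzy⟩ := hA (Finset.mem_coe.2 hy')
    have : z = y := Subtype.ext hzy
    rwa [this] at hz) (fun y => ξ y) (by
    intro y hy
    exact hξ y (Finset.mem_subtype.1 hy)) (by
    ext
    rw [AddSubgroup.val_finsetSum, AddSubgroup.coe_zero, ← hrel]
    simp only [AddSubgroup.coe_zsmul]
    exact Finset.sum_subtype_of_mem (fun y : Γ => ξ y • y) hAS)
  exact h1 ⟨x, hAS x hx⟩ (Finset.mem_subtype.2 hx)

theorem indP_preimage {p : ℤ → Prop} (S : AddSubgroup Γ) {Q : Set Γ} (h : IndP p Q) :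
    IndP p (Subtype.val ⁻¹' Q : Set S) := by
  classical
  intro A hA ξ hξ hrel x hx
  let ξ' : Γ → ℤ := fun y => if h : y ∈ S then ξ ⟨y, h⟩ else 0
  have hξ' : ∀ y : S, ξ' y = ξ y := fun y => dif_pos y.2
  have h1 := h (A.map (Function.Embedding.subtype _)) (by
    intro y hy
    obtain ⟨z, hz, rfl⟩ := Finset.mem_map.1 (Finset.mem_coe.1 hy)
    exact hA (Finset.mem_coe.2 hz)) ξ' (by
    intro y hy
    obtain ⟨z, hz, rfl⟩ := Finset.mem_map.1 hy
    rw [Function.Embedding.subtype_apply, hξ']
    exact hξ z hz) (by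
    rw [Finset.sum_map]
    have h2 := congrArg Subtype.val hrel
    rw [AddSubgroup.val_finsetSum, AddSubgroup.coe_zero] at h2
    rw [← h2]
    refine Finset.sum_congr rfl fun y _ => ?_
    rw [Function.Embedding.subtype_apply, hξ', AddSubgroup.coe_zsmul])
    x (Finset.mem_map.2 ⟨x, hx, rfl⟩)
  rwa [hξ'] at h1

theorem sub_transfer (μ : Measure G) (S : AddSubgroup Γ) (chr : Γ → G → ℂ) (C : ℝ) (Λ : Set Γ)
    (hΛ : Λ ⊆ S) :
    SubC μ chr C Λ ↔ SubC μ (fun x : S => chr x) C (Subtype.val ⁻¹' Λ) := by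
  classical
  constructor
  · intro h A a hA
    let a' : Γ → ℂ := fun y => if h : y ∈ S then a ⟨y, h⟩ else 0
    have ha' : ∀ y : S, a' y = a y := fun y => dif_pos y.2
    have h1 := h (A.map (Function.Embedding.subtype _)) a' (by
      intro y hy
      obtain ⟨z, hz, rfl⟩ := Finset.mem_map.1 (Finset.mem_coe.1 hy)
      exact hA (Finset.mem_coe.2 hz))
    simp only [Finset.sum_map, Function.Embedding.subtype_apply, ha'] at h1
    exact h1
  · intro h A a hA
    have hAS : ∀ x ∈ A, x ∈ S := fun x hx => hΛ (hA (Finset.mem_coe.2 hx))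
    have h1 := h (A.subtype (· ∈ S)) (fun y => a y) (by
      intro y hy
      exact hA (Finset.mem_coe.2 (Finset.mem_subtype.1 (Finset.mem_coe.1 hy))))
    have h2 : ∀ t, ∑ n ∈ A.subtype (· ∈ S), a n * chr n t = ∑ n ∈ A, a n * chr n t := fun t =>
      Finset.sum_subtype_of_mem (fun y : Γ => a y * chr y t) hAS
    have h3 : ∑ n ∈ A.subtype (· ∈ S), ‖a n‖ ^ 2 = ∑ n ∈ A, ‖a n‖ ^ 2 :=
      Finset.sum_subtype_of_mem (fun y : Γ => ‖a y‖ ^ 2) hAS
    simp only [h2, h3] at h1
    exact h1

end Transfer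

/-! ### asymptotics -/

theorem asym {ε : ℝ} (hε : 0 < ε) : ∃ n₀ : ℕ, 3 ≤ n₀ ∧ ∀ n : ℕ, n₀ ≤ n → ∀ p : ℕ, 2 ≤ p → ∀ k : ℝ, 0 ≤ k →
    ((n : ℝ) - 1) * Real.log p ≤ k * Real.log n →
    num p (Real.sqrt (((n : ℝ) - 1) / Real.log ((n : ℝ) - 1))) ≤ (1 + ε) * k := by
  -- the limit
  have hlim : Filter.Tendsto (fun L : ℝ => (1 + Real.log 2 / L) * (1 + 1 / (L / 2 - Real.log 2)))
      Filter.atTop (nhds ((1 + 0) * (1 + 0))) := by
    refine Filter.Tendsto.mul (tendsto_const_nhds.add ?_) (tendsto_const_nhds.add ?_)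
    · exact Filter.Tendsto.div_atTop tendsto_const_nhds Filter.tendsto_id
    · refine Filter.Tendsto.div_atTop tendsto_const_nhds ?_
      refine Filter.tendsto_atTop_add_const_right _ _ ?_
      exact Filter.tendsto_id.atTop_div_const (by norm_num)
  have hev : ∀ᶠ L : ℝ in Filter.atTop,
      (1 + Real.log 2 / L) * (1 + 1 / (L / 2 - Real.log 2)) < 1 + ε := by
    refine hlim.eventually (gt_mem_nhds ?_)
    linarith
  have hlogs : Filter.Tendsto (fun n : ℕ => Real.log ((n : ℝ) - 1)) Filter.atTop Filter.atTop := by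
    refine Real.tendsto_log_atTop.comp ?_
    exact Filter.tendsto_atTop_add_const_right _ _ tendsto_natCast_atTop_atTop
  obtain ⟨n₁, hn₁⟩ := Filter.eventually_atTop.1 (hlogs.eventually (hev.and (Filter.eventually_ge_atTop 4)))
  refine ⟨max n₁ 3, le_max_right _ _, fun n hn p hp k hk hkn => ?_⟩
  obtain ⟨h1, h4⟩ := hn₁ n ((le_max_left _ _).trans hn)
  have hn3 : 3 ≤ n := (le_max_right _ _).trans hn
  set s : ℝ := (n : ℝ) - 1 with hs
  have hs2 : 2 ≤ s := by
    have : (3 : ℝ) ≤ n := by exact_mod_cast hn3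
    rw [hs]; linarith
  set L : ℝ := Real.log s with hL
  have hL0 : 0 < L := by linarith
  have hl2 : 0 < Real.log 2 := Real.log_pos (by norm_num)
  have hl2' : Real.log 2 < 1 := by
    have := Real.log_two_lt_d9
    linarith
  have hC2 : Real.sqrt (s / L) ^ 2 = s / L := Real.sq_sqrt (by positivity)
  have hpR : (2 : ℝ) ≤ p := by exact_mod_cast hp
  have hlp : 0 < Real.log p := Real.log_pos (by linarith)
  -- `log n ≤ log 2 + L`
  have hlogn : Real.log n ≤ L + Real.log 2 := by
    have h5 : (n : ℝ) ≤ s * 2 := by rw [hs]; linarith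
    have h6 := Real.log_le_log (by linarith : (0 : ℝ) < n) h5
    rwa [Real.log_mul (by linarith) (by norm_num)] at h6
  -- `s / L` is large
  have hbig : L / 2 - Real.log 2 ≤ Real.log (max p (1 + s / L)) := by
    have h5 : L / 2 = Real.log (Real.sqrt s) := by
      rw [Real.log_sqrt (by linarith)]
    have hsq : 0 < Real.sqrt s := Real.sqrt_pos.2 (by linarith)
    have hss : Real.sqrt s * Real.sqrt s = s := Real.mul_self_sqrt (by linarith)
    have h6 : L ≤ 2 * Real.sqrt s := by
      have := Real.log_le_sub_one_of_pos hsq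
      linarith
    rw [h5, ← Real.log_div hsq.ne' (by norm_num)]
    refine Real.log_le_log (by positivity) (le_trans ?_ (le_max_right _ _))
    have h7 : Real.sqrt s / 2 ≤ s / L := by
      rw [div_le_div_iff₀ (by norm_num) hL0]
      nlinarith
    linarith
  have hpos2 : 0 < L / 2 - Real.log 2 := by linarith
  unfold num
  rw [hC2]
  have h8 : 1 / Real.log (max p (1 + s / L)) ≤ 1 / (L / 2 - Real.log 2) :=
    one_div_le_one_div_of_le hpos2 hbig
  have h9 : s / L * Real.log p ≤ k * (1 + Real.log 2 / L) := by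
    have h10 : s * Real.log p ≤ k * (L + Real.log 2) := hkn.trans (mul_le_mul_of_nonneg_left hlogn hk)
    have h11 : k * (1 + Real.log 2 / L) = k * (L + Real.log 2) / L := by
      field_simp
    rw [h11, div_mul_eq_mul_div]
    gcongr
  calc s / L * Real.log p * (1 + 1 / Real.log (max p (1 + s / L)))
      ≤ (k * (1 + Real.log 2 / L)) * (1 + 1 / (L / 2 - Real.log 2)) := by
        refine mul_le_mul h9 (by linarith) ?_ (by positivity)
        have : 0 < Real.log (max p (1 + s / L)) := lt_of_lt_of_le hpos2 hbig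
        positivity
    _ = k * ((1 + Real.log 2 / L) * (1 + 1 / (L / 2 - Real.log 2))) := by ring
    _ ≤ k * (1 + ε) := mul_le_mul_of_nonneg_left h1.le hk
    _ = (1 + ε) * k := by ring

end Pool.Agent.H46.SG
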