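import Pool.Agent.H46.SG.Comb
import Pool.Agent.H46.SG.Ana

set_option autoImplicit false
set_option linter.unusedSectionVars false

/-!
# The number of quasi-independent sets and the subgaussian constant
-/

namespace Pool.Agent.H46.SG

open MeasureTheory TopologicalSpace
open Pool.Agent.H337R3.Sid (QI)

/-- The `ψ₂` norm. -/
noncomputable def psi2 {G : Type*} [MeasurableSpace G] (μ : Measure G) (f : G → ℂ) : ℝ :=
  sInf {c : ℝ | 0 < c ∧
    ∫⁻ t, ENNReal.ofReal (Real.exp (‖f t‖ ^ 2 / c ^ 2)) ∂μ ≤ ENNReal.ofReal (Real.exp 1)}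

/-- `Λ` is subgaussian with the constant `C`. -/
def SubC {Γ G : Type*} [MeasurableSpace G] (μ : Measure G) (chr : Γ → G → ℂ) (C : ℝ) (Λ : Set Γ) : Prop :=
  ∀ (A : Finset Γ) (a : Γ → ℂ), (A : Set Γ) ⊆ Λ →
    psi2 μ (fun t => ∑ n ∈ A, a n * chr n t) ≤ C * Real.sqrt (∑ n ∈ A, ‖a n‖ ^ 2)

variable {Γ G : Type*} [AddCommGroup Γ] [AddCommGroup G] [TopologicalSpace G]
  [IsTopologicalAddGroup G] [CompactSpace G] [MeasurableSpace G] [BorelSpace G]
  (μ : Measure G) [IsProbabilityMeasure μ] [μ.IsAddLeftInvariant] (P : Pairing Γ G)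

theorem psi2_le {f : G → ℂ} {c : ℝ} (hc : 0 < c) (h : gauss μ f c ≤ ENNReal.ofReal (Real.exp 1)) :
    psi2 μ f ≤ c := csInf_le ⟨0, fun _ hc => hc.1.le⟩ ⟨hc, h⟩

/-- subgaussian sets are small -/
theorem card_le_of_sub {C : ℝ} {Λ : Set Γ} (h : SubC μ P.chr C Λ) (A : Finset Γ)
    (hA : (A : Set Γ) ⊆ Λ) [Finite (AddSubgroup.closure (A : Set Γ))] :
    (A.card : ℝ) ≤ C ^ 2 * (1 + Real.log (Nat.card (AddSubgroup.closure (A : Set Γ)))) := by
  classical
  set n := Nat.card (AddSubgroup.closure (A : Set Γ)) with hn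
  have hn1 : (1 : ℝ) ≤ n := by
    have : 0 < n := Nat.card_pos
    exact_mod_cast this
  set L := 1 + Real.log n with hL
  have hL1 : 1 ≤ L := by
    have := Real.log_nonneg hn1
    linarith
  rcases A.eq_empty_or_nonempty with hAe | hAe
  · rw [hAe]
    simp only [Finset.card_empty, Nat.cast_zero]
    positivity
  have hAcard : 0 < A.card := Finset.card_pos.mpr hAe
  have hAR : (0 : ℝ) < A.card := by exact_mod_cast hAcard
  have hsub := h A (fun _ => 1) hA
  have hsum : ∑ n ∈ A, ‖(1 : ℂ)‖ ^ 2 = (A.card : ℝ) := by simp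
  rw [hsum] at hsub
  by_contra hcon
  rw [not_le] at hcon
  -- a slightly larger constant
  set D : ℝ := (C ^ 2 + A.card / L) / 2 with hD
  have hL0 : 0 < L := by linarith
  have hq : C ^ 2 < A.card / L := by
    rw [lt_div_iff₀ hL0]
    exact hcon
  have hD1 : C ^ 2 < D := by rw [hD]; linarith
  have hD2 : D < A.card / L := by rw [hD]; linarith
  have hD0 : 0 < D := lt_of_le_of_lt (sq_nonneg C) hD1
  have hCD : C < Real.sqrt D := Real.lt_sqrt_of_sq_lt hD1
  set S := {c : ℝ | 0 < c ∧ ∫⁻ t, ENNReal.ofReal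
    (Real.exp (‖∑ n ∈ A, (1 : ℂ) * P.chr n t‖ ^ 2 / c ^ 2)) ∂μ ≤ ENNReal.ofReal (Real.exp 1)}
    with hS
  have hSne : S.Nonempty := by
    refine ⟨A.card, hAR, ?_⟩
    calc gauss μ (fun t => ∑ n ∈ A, (1 : ℂ) * P.chr n t) A.card
        ≤ ∫⁻ _t, ENNReal.ofReal (Real.exp 1) ∂μ := by
          refine lintegral_mono fun t => ENNReal.ofReal_le_ofReal (Real.exp_le_exp.2 ?_)
          rw [div_le_one (by positivity)]
          refine pow_le_pow_left₀ (norm_nonneg _) ?_ 2
          refine (norm_sum_le _ _).trans (le_of_eq ?_)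
          rw [Finset.sum_congr rfl (fun n _ => by rw [norm_mul, norm_one, P.norm, one_mul])]
          simp
      _ = _ := by simp
  have hlt : sInf S < Real.sqrt D * Real.sqrt A.card := by
    have h1 : sInf S ≤ C * Real.sqrt A.card := hsub
    have h2 : 0 < Real.sqrt A.card := Real.sqrt_pos.2 hAR
    nlinarith
  obtain ⟨c, hcS, hc⟩ := exists_lt_of_csInf_lt hSne hlt
  have h1 := card_le_of_gauss μ P A c hcS.2
  have hc0 : 0 < c := hcS.1
  have hc2 : c ^ 2 ≤ D * A.card := by
    have h2 : c ^ 2 ≤ (Real.sqrt D * Real.sqrt A.card) ^ 2 := pow_le_pow_left₀ hc0.le hc.le 2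
    rwa [mul_pow, Real.sq_sqrt hAR.le, Real.sq_sqrt hD0.le] at h2
  rw [div_le_iff₀ (by positivity)] at h1
  change (A.card : ℝ) ^ 2 ≤ L * c ^ 2 at h1
  rw [lt_div_iff₀ hL0] at hD2
  have h3 : (A.card : ℝ) ^ 2 ≤ L * (D * A.card) :=
    h1.trans (mul_le_mul_of_nonneg_left hc2 (by linarith))
  nlinarith

/-- unions of quasi-independent sets are subgaussian -/
theorem sub_of_union (k : ℕ) (Q : Fin k → Set Γ) (hQ : ∀ i, QI (Q i)) (Λ : Set Γ)
    (hΛ : Λ ⊆ ⋃ i, Q i) : SubC μ P.chr (5 * Real.sqrt k) Λ := by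
  intro A a hA
  refine le_of_forall_pos_le_add fun ε hε => ?_
  set v := ∑ n ∈ A, ‖a n‖ ^ 2 with hv
  have hv0 : 0 ≤ v := Finset.sum_nonneg fun _ _ => by positivity
  have hk0 : (0 : ℝ) ≤ k := Nat.cast_nonneg k
  have hs := Real.sqrt_nonneg v
  have hs2 := Real.sq_sqrt hv0
  have ht := Real.sqrt_nonneg (k : ℝ)
  have ht2 := Real.sq_sqrt hk0
  have hpos : 0 < 5 * Real.sqrt k * Real.sqrt v + ε := by positivity
  refine psi2_le μ hpos ?_
  rcases Nat.eq_zero_or_pos k with hk | hk
  · subst hk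
    have hAe : A = ∅ := by
      rw [Finset.eq_empty_iff_forall_notMem]
      intro x hx
      have := hΛ (hA (Finset.mem_coe.2 hx))
      simp at this
    subst hAe
    unfold gauss
    simp only [Finset.sum_empty, norm_zero]
    rw [zero_pow two_ne_zero, zero_div, Real.exp_zero, ENNReal.ofReal_one, lintegral_one, measure_univ]
    rw [ENNReal.one_le_ofReal]
    exact Real.one_le_exp (by norm_num)
  · refine union μ P k hk Q hQ A (hA.trans hΛ) a _ hpos ?_
    rw [← hv]
    have h1 : (5 * Real.sqrt k * Real.sqrt v) ^ 2 = 25 * k * v := by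
      rw [mul_pow, mul_pow, hs2, ht2]; ring
    have h2 : 0 ≤ 5 * Real.sqrt k * Real.sqrt v := by positivity
    nlinarith

/-- Parseval -/
theorem parseval (A : Finset Γ) (a : Γ → ℂ) :
    ∫ t, ‖∑ n ∈ A, a n * P.chr n t‖ ^ 2 ∂μ = ∑ n ∈ A, ‖a n‖ ^ 2 := by
  classical
  have key : ∀ t : G, ((‖∑ n ∈ A, a n * P.chr n t‖ ^ 2 : ℝ) : ℂ) =
      ∑ n ∈ A, ∑ l ∈ A, (a n * starRingEnd ℂ (a l)) * P.chr (n + -l) t := by
    intro t
    rw [← Complex.normSq_eq_norm_sq, ← Complex.mul_conj, map_sum, Finset.sum_mul_sum]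
    refine Finset.sum_congr rfl fun n _ => Finset.sum_congr rfl fun l _ => ?_
    rw [P.add, P.chr_neg, map_mul]
    ring
  have h1 : ((∫ t, ‖∑ n ∈ A, a n * P.chr n t‖ ^ 2 ∂μ : ℝ) : ℂ) = ((∑ n ∈ A, ‖a n‖ ^ 2 : ℝ) : ℂ) := by
    rw [← integral_complex_ofReal]
    simp_rw [key]
    rw [integral_finsetSum _ (fun n _ => integrable_finsetSum _ fun l _ =>
      (integrable_chr μ P _).const_mul _)]
    rw [Complex.ofReal_sum]
    refine Finset.sum_congr rfl fun n hn => ?_
    rw [integral_finsetSum _ (fun l _ => (integrable_chr μ P _).const_mul _)]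
    simp_rw [integral_const_mul]
    rw [Finset.sum_eq_single n]
    · have h3 : ∫ t, P.chr (n + -n) t ∂μ = 1 := by
        rw [add_neg_cancel]
        simp_rw [P.zero]
        simp
      rw [h3, mul_one, Complex.mul_conj, Complex.normSq_eq_norm_sq]
    · intro l _ hl
      have h3 : n + -l ≠ 0 := by
        intro h
        exact hl (by rw [add_neg_eq_zero] at h; exact h.symm)
      rw [integral_chr μ P _ h3, mul_zero]
    · intro h
      exact absurd hn h
  exact_mod_cast h1

/-- `s` characters have the subgaussian constant at most `√(s / log s)` -/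
theorem sub_finite (Λ : Finset Γ) (hs : 2 ≤ Λ.card) :
    SubC μ P.chr (Real.sqrt (Λ.card / Real.log Λ.card)) (Λ : Set Γ) := by
  intro A a hA
  set s : ℝ := (Λ.card : ℝ) with hsdef
  have hs2 : (2 : ℝ) ≤ s := by rw [hsdef]; exact_mod_cast hs
  have hlog : 0 < Real.log s := Real.log_pos (by linarith)
  have hAs : (A.card : ℝ) ≤ s := by
    rw [hsdef]
    exact_mod_cast Finset.card_le_card (Finset.coe_subset.1 hA)
  refine le_of_forall_pos_le_add fun ε hε => ?_
  set v := ∑ n ∈ A, ‖a n‖ ^ 2 with hv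
  have hv0 : 0 ≤ v := Finset.sum_nonneg fun _ _ => by positivity
  have he1 : (2 : ℝ) ≤ Real.exp 1 := by
    have := Real.exp_one_gt_d9
    linarith
  rcases hv0.eq_or_lt with hv' | hvpos
  · have h1 : ∀ n ∈ A, a n = 0 := by
      intro n hn
      have := (Finset.sum_eq_zero_iff_of_nonneg (fun _ _ => by positivity)).1 hv'.symm n hn
      simpa using this
    have h2 : ∀ t, ∑ n ∈ A, a n * P.chr n t = 0 := fun t =>
      Finset.sum_eq_zero (fun n hn => by rw [h1 n hn, zero_mul])
    refine psi2_le μ (by positivity) ?_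
    unfold gauss
    simp_rw [h2]
    rw [norm_zero, zero_pow two_ne_zero, zero_div, Real.exp_zero, ENNReal.ofReal_one, lintegral_one,
      measure_univ, ENNReal.one_le_ofReal]
    linarith
  · set c : ℝ := Real.sqrt (s / Real.log s) * Real.sqrt v with hc
    have hc0 : 0 < c := by positivity
    have hc2 : c ^ 2 = s / Real.log s * v := by
      rw [hc, mul_pow, Real.sq_sqrt (by positivity), Real.sq_sqrt hv0]
    have hcs : c ^ 2 * Real.log s = s * v := by
      rw [hc2]
      field_simp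
    refine (psi2_le μ hc0 ?_).trans (by linarith)
    set f : G → ℂ := fun t => ∑ n ∈ A, a n * P.chr n t with hf
    have hfc : Continuous f := poly_continuous P A a
    have hpt : ∀ t, ‖f t‖ ^ 2 ≤ s * v := by
      intro t
      have h1 : ‖f t‖ ≤ ∑ n ∈ A, ‖a n‖ := by
        refine (norm_sum_le _ _).trans (le_of_eq ?_)
        refine Finset.sum_congr rfl fun n _ => ?_
        rw [norm_mul, P.norm, mul_one]
      have h2 : (∑ n ∈ A, ‖a n‖) ^ 2 ≤ A.card * v := sq_sum_le_card_mul_sum_sq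
      calc ‖f t‖ ^ 2 ≤ (∑ n ∈ A, ‖a n‖) ^ 2 := pow_le_pow_left₀ (norm_nonneg _) h1 2
        _ ≤ A.card * v := h2
        _ ≤ s * v := mul_le_mul_of_nonneg_right hAs hv0
    have hexp : ∀ t, Real.exp (‖f t‖ ^ 2 / c ^ 2) ≤ 1 + ‖f t‖ ^ 2 * ((s - 1) / (s * v)) := by
      intro t
      -- convexity of the exponential function
      set y : ℝ := ‖f t‖ ^ 2 / (s * v) with hy
      have hsv : 0 < s * v := by positivity
      have hy0 : 0 ≤ y := by positivity
      have hy1 : y ≤ 1 := by rw [hy, div_le_one hsv]; exact hpt t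
      have h1 := convexOn_exp.2 (Set.mem_univ (Real.log s)) (Set.mem_univ (0 : ℝ)) hy0
        (by linarith : (0 : ℝ) ≤ 1 - y) (by ring)
      simp only [smul_eq_mul, mul_zero, add_zero, Real.exp_zero, mul_one] at h1
      rw [Real.exp_log (by linarith)] at h1
      have h2 : ‖f t‖ ^ 2 / c ^ 2 = y * Real.log s := by
        rw [hy, ← hcs]
        field_simp
      rw [h2]
      refine h1.trans (le_of_eq ?_)
      rw [hy]
      field_simp
      ring
    have hint : Integrable (fun t => 1 + ‖f t‖ ^ 2 * ((s - 1) / (s * v))) μ := by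
      have : Continuous (fun t => 1 + ‖f t‖ ^ 2 * ((s - 1) / (s * v))) := by fun_prop
      exact this.integrable_of_hasCompactSupport (HasCompactSupport.of_compactSpace _)
    have hint2 : Integrable (fun t => ‖f t‖ ^ 2 * ((s - 1) / (s * v))) μ := by
      have : Continuous (fun t => ‖f t‖ ^ 2 * ((s - 1) / (s * v))) := by fun_prop
      exact this.integrable_of_hasCompactSupport (HasCompactSupport.of_compactSpace _)
    unfold gauss
    calc ∫⁻ t, ENNReal.ofReal (Real.exp (‖f t‖ ^ 2 / c ^ 2)) ∂μ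
        ≤ ∫⁻ t, ENNReal.ofReal (1 + ‖f t‖ ^ 2 * ((s - 1) / (s * v))) ∂μ :=
          lintegral_mono fun t => ENNReal.ofReal_le_ofReal (hexp t)
      _ = ENNReal.ofReal (∫ t, (1 + ‖f t‖ ^ 2 * ((s - 1) / (s * v))) ∂μ) := by
          rw [ofReal_integral_eq_lintegral_ofReal hint]
          refine Filter.Eventually.of_forall fun t => ?_
          have h1 : 0 ≤ (s - 1) / (s * v) := div_nonneg (by linarith) (by positivity)
          positivity
      _ ≤ ENNReal.ofReal (Real.exp 1) := by
          refine ENNReal.ofReal_le_ofReal ?_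
          rw [integral_add (integrable_const _) hint2, integral_mul_const, parseval μ P A a, ← hv]
          simp only [integral_const, probReal_univ, smul_eq_mul, mul_one]
          have h1 : v * ((s - 1) / (s * v)) = (s - 1) / s := by field_simp
          rw [h1]
          have h2 : (s - 1) / s ≤ 1 := by rw [div_le_one (by linarith)]; linarith
          linarith

/-- independent sets in finite groups are small -/
theorem pow_card_le (H : AddSubgroup Γ) [Finite H] (c : ℕ) (p : ℤ → Prop)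
    (hp : ∀ z : ℤ, |z| < c → p z) (I : Finset Γ) (hI : (I : Set Γ) ⊆ H)
    (hind : ∀ ξ : Γ → ℤ, (∀ x ∈ I, p (ξ x)) → ∑ x ∈ I, ξ x • x = 0 → ∀ x ∈ I, ξ x = 0) :
    c ^ I.card ≤ Nat.card H := by
  classical
  let F : (I → Fin c) → H := fun f => ⟨∑ x : I, ((f x : ℕ) : ℤ) • (x : Γ),
    AddSubgroup.sum_mem _ fun x _ => AddSubgroup.zsmul_mem _ (hI (Finset.mem_coe.2 x.2)) _⟩
  have hF : Function.Injective F := by
    intro f g hfg
    have h1 : ∑ x : I, ((f x : ℕ) : ℤ) • (x : Γ) = ∑ x : I, ((g x : ℕ) : ℤ) • (x : Γ) :=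
      congrArg Subtype.val hfg
    let ξ : Γ → ℤ := fun x => if h : x ∈ I then ((f ⟨x, h⟩ : ℕ) : ℤ) - ((g ⟨x, h⟩ : ℕ) : ℤ) else 0
    have hξ : ∀ x : I, ξ x = ((f x : ℕ) : ℤ) - ((g x : ℕ) : ℤ) := fun x => dif_pos x.2
    have h2 := hind ξ (fun x hx => by
      apply hp
      rw [hξ ⟨x, hx⟩, abs_lt]
      have h3 := (f ⟨x, hx⟩).2
      have h4 := (g ⟨x, hx⟩).2
      omega) (by
      rw [← Finset.sum_coe_sort I]
      simp_rw [hξ, sub_smul]
      rw [Finset.sum_sub_distrib, h1, sub_self])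
    funext x
    have h3 := h2 x x.2
    rw [hξ x] at h3
    ext
    omega
  have h := Nat.card_le_card_of_injective F hF
  rwa [Nat.card_fun, Nat.card_eq_fintype_card (α := Fin c), Fintype.card_fin, Nat.card_eq_fintype_card,
    Fintype.card_coe] at h

/-- many independent sets are necessary for large subsets of a finite group -/
theorem cover_lower' (H : AddSubgroup Γ) [Finite H] (c : ℕ) (hc : 1 ≤ c) (p : ℤ → Prop)
    (hp : ∀ z : ℤ, |z| < c → p z) (k : ℕ) (Q : Fin k → Set Γ)
    (hQ : ∀ i, ∀ A : Finset Γ, (A : Set Γ) ⊆ Q i → ∀ ξ : Γ → ℤ, (∀ x ∈ A, p (ξ x)) →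
      ∑ x ∈ A, ξ x • x = 0 → ∀ x ∈ A, ξ x = 0)
    (E : Finset Γ) (hEH : ∀ x ∈ E, x ∈ H) (hcov : (E : Set Γ) ⊆ ⋃ i, Q i) :
    (E.card : ℝ) * Real.log c ≤ k * Real.log (Nat.card H) := by
  classical
  have hi : ∀ i, ((E.filter (fun x => x ∈ Q i)).card : ℝ) * Real.log c ≤ Real.log (Nat.card H) := by
    intro i
    have h1 := pow_card_le H c p hp (E.filter (fun x => x ∈ Q i))
      (fun x hx => hEH x (Finset.mem_filter.1 (Finset.mem_coe.1 hx)).1)
      (hQ i _ (fun x hx => (Finset.mem_filter.1 (Finset.mem_coe.1 hx)).2))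
    have h2 : ((c : ℝ) ^ (E.filter (fun x => x ∈ Q i)).card) ≤ (Nat.card H : ℝ) := by exact_mod_cast h1
    have h3 : (0 : ℝ) < c := by exact_mod_cast hc
    have h4 := Real.log_le_log (by positivity) h2
    rwa [Real.log_pow] at h4
  have hsum : (E.card : ℝ) ≤ ∑ i : Fin k, ((E.filter (fun x => x ∈ Q i)).card : ℝ) := by
    have h1 : E ⊆ Finset.univ.biUnion (fun i : Fin k => E.filter (fun x => x ∈ Q i)) := by
      intro x hx
      obtain ⟨i, hi⟩ := Set.mem_iUnion.1 (hcov (Finset.mem_coe.2 hx))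
      exact Finset.mem_biUnion.2 ⟨i, Finset.mem_univ _, Finset.mem_filter.2 ⟨hx, hi⟩⟩
    have h2 := (Finset.card_le_card h1).trans Finset.card_biUnion_le
    exact_mod_cast h2
  have hlc : 0 ≤ Real.log c := Real.log_nonneg (by exact_mod_cast hc)
  calc (E.card : ℝ) * Real.log c
      ≤ (∑ i : Fin k, ((E.filter (fun x => x ∈ Q i)).card : ℝ)) * Real.log c :=
        mul_le_mul_of_nonneg_right hsum hlc
    _ = ∑ i : Fin k, ((E.filter (fun x => x ∈ Q i)).card : ℝ) * Real.log c := Finset.sum_mul _ _ _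
    _ ≤ ∑ _i : Fin k, Real.log (Nat.card H) := Finset.sum_le_sum fun i _ => hi i
    _ = k * Real.log (Nat.card H) := by
        rw [Finset.sum_const, Finset.card_univ, Fintype.card_fin, nsmul_eq_mul]

/-- many independent sets are necessary for the nonzero elements of a finite group -/
theorem cover_lower (H : AddSubgroup Γ) [Finite H] (c : ℕ) (hc : 1 ≤ c) (p : ℤ → Prop)
    (hp : ∀ z : ℤ, |z| < c → p z) (k : ℕ) (Q : Fin k → Set Γ)
    (hQ : ∀ i, ∀ A : Finset Γ, (A : Set Γ) ⊆ Q i → ∀ ξ : Γ → ℤ, (∀ x ∈ A, p (ξ x)) →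
      ∑ x ∈ A, ξ x • x = 0 → ∀ x ∈ A, ξ x = 0)
    (hcov : {x : Γ | x ∈ H ∧ x ≠ 0} ⊆ ⋃ i, Q i) :
    ((Nat.card H : ℝ) - 1) * Real.log c ≤ k * Real.log (Nat.card H) := by
  classical
  have hfin : (H : Set Γ).Finite := Set.toFinite _
  set E : Finset Γ := hfin.toFinset.erase 0 with hE
  have hEcard : (E.card : ℝ) = (Nat.card H : ℝ) - 1 := by
    have h1 : hfin.toFinset.card = Nat.card H := by
      rw [← Set.ncard_eq_toFinset_card _ hfin]
      rfl
    have h0 : (0 : Γ) ∈ hfin.toFinset := by simp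
    rw [hE, Finset.card_erase_of_mem h0, h1, Nat.cast_sub]
    · simp
    · exact Nat.card_pos
  have hEH : ∀ x ∈ E, x ∈ H := by
    intro x hx
    have := Finset.mem_of_mem_erase hx
    simpa using this
  have hE0 : ∀ x ∈ E, x ≠ 0 := fun x hx => Finset.ne_of_mem_erase hx
  rw [← hEcard]
  exact cover_lower' H c hc p hp k Q hQ E hEH
    (fun x hx => hcov ⟨hEH x (Finset.mem_coe.1 hx), hE0 x (Finset.mem_coe.1 hx)⟩)

/-- concavity of the logarithm -/
theorem log_slope {x y : ℝ} (hx : 1 < x) (hxy : x ≤ y) :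
    (x - 1) * Real.log y ≤ (y - 1) * Real.log x := by
  have hy : 0 < y - 1 := by linarith
  have h1 := strictConcaveOn_log_Ioi.concaveOn.2 (Set.mem_Ioi.2 (by linarith : (0 : ℝ) < y))
    (Set.mem_Ioi.2 one_pos) (div_nonneg (by linarith : 0 ≤ x - 1) hy.le)
    (by rw [sub_nonneg, div_le_one hy]; linarith : (0 : ℝ) ≤ 1 - (x - 1) / (y - 1)) (by ring)
  simp only [smul_eq_mul, mul_one, Real.log_one, mul_zero, add_zero] at h1
  have h2 : (x - 1) / (y - 1) * y + (1 - (x - 1) / (y - 1)) = x := by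
    field_simp
    ring
  rw [h2, div_mul_eq_mul_div, div_le_iff₀ hy] at h1
  linarith

/-- the bound for the number of independent sets -/
noncomputable def num (m : ℕ) (C : ℝ) : ℝ := C ^ 2 * Real.log m * (1 + 1 / Real.log (max m (1 + C ^ 2)))

/-- subgaussian sets are unions of few independent sets -/
theorem union_of_sub {m : ℕ} (hm : 2 ≤ m) {C : ℝ} {Λ : Set Γ}
    (hexp : ∀ x ∈ Λ, m • x = 0) (h0 : (0 : Γ) ∉ Λ) (h : SubC μ P.chr C Λ) :
    ∃ Q : Fin ⌈num m C⌉₊ → Set Γ, (∀ i, Ind m (Q i)) ∧ Λ = ⋃ i, Q i := by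
  classical
  refine finite_union hm _ Λ hexp ?_
  intro A hA
  have hfin : Finite (AddSubgroup.closure (A : Set Γ)) :=
    Pool.Agent.H337R3.Sid.closure_finite m (by omega) A (fun x hx => hexp x (hA hx))
  have h1 := card_le_of_sub μ P h A hA
  set n := Nat.card (AddSubgroup.closure (A : Set Γ)) with hn
  rcases A.eq_empty_or_nonempty with hAe | hAe
  · rw [hAe]
    simp
  set d := Nat.clog m n with hd
  have hnd : n ≤ m ^ d := (Nat.clog_le_iff_le_pow (by omega)).1 le_rfl
  -- `A` does not contain zero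
  have hAn : A.card + 1 ≤ n := by
    have h0A : (0 : Γ) ∉ A := fun h => h0 (hA h)
    have h2 : ((insert 0 A : Finset Γ) : Set Γ) ⊆ (AddSubgroup.closure (A : Set Γ) : Set Γ) := by
      intro x hx
      rcases Finset.mem_insert.1 (Finset.mem_coe.1 hx) with h | h
      · rw [h]
        exact AddSubgroup.zero_mem _
      · exact AddSubgroup.subset_closure h
    have h3 := Set.ncard_le_ncard h2 (Set.toFinite _)
    rw [Set.ncard_coe_finset, Finset.card_insert_of_notMem h0A] at h3
    exact h3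
  have hn2 : 2 ≤ n := by
    have := Finset.card_pos.2 hAe
    omega
  have hd1 : 1 ≤ d := by
    rcases Nat.eq_zero_or_pos d with h | h
    · rw [h] at hnd
      simp at hnd
      omega
    · exact h
  have hlog : Real.log n ≤ d * Real.log m := by
    have h2 : (n : ℝ) ≤ (m : ℝ) ^ d := by exact_mod_cast hnd
    have h3 := Real.log_le_log (by exact_mod_cast (by omega : 0 < n)) h2
    rwa [Real.log_pow] at h3
  have hmR : (2 : ℝ) ≤ m := by exact_mod_cast hm
  have hlm : 0 < Real.log m := Real.log_pos (by linarith)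
  have hdR : (1 : ℝ) ≤ d := by exact_mod_cast hd1
  set X : ℝ := max m (1 + C ^ 2) with hX
  have hX2 : 2 ≤ X := hmR.trans (le_max_left _ _)
  have hlX : 0 < Real.log X := Real.log_pos (by linarith)
  have hmd : (m : ℝ) ≤ (m : ℝ) ^ d := by
    calc (m : ℝ) = (m : ℝ) ^ 1 := (pow_one _).symm
      _ ≤ (m : ℝ) ^ d := pow_le_pow_right₀ (by linarith) hd1
  have hC0 := sq_nonneg C
  have key : (A.card : ℝ) ≤ num m C * d := by
    have hnum : num m C * d = C ^ 2 * (d * Real.log m) + C ^ 2 * (d * Real.log m) / Real.log X := by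
      rw [num, ← hX]
      field_simp
    rw [hnum]
    rcases le_or_gt (1 + C ^ 2) ((m : ℝ) ^ d) with hc | hc
    · -- large groups
      have h2 : Real.log X ≤ d * Real.log m := by
        rw [← Real.log_pow]
        exact Real.log_le_log (by linarith) (max_le hmd hc)
      have h3 : (1 : ℝ) ≤ d * Real.log m / Real.log X := by
        rw [le_div_iff₀ hlX, one_mul]
        exact h2
      calc (A.card : ℝ) ≤ C ^ 2 * (1 + Real.log n) := h1
        _ ≤ C ^ 2 * (d * Real.log m / Real.log X + d * Real.log m) :=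
            mul_le_mul_of_nonneg_left (by linarith) hC0
        _ = _ := by ring
    · -- small groups
      have hXC : X = 1 + C ^ 2 := max_eq_right (by linarith)
      have h2 : (A.card : ℝ) + 1 ≤ (m : ℝ) ^ d := by
        exact_mod_cast hAn.trans hnd
      have h3 := log_slope (x := (m : ℝ) ^ d) (y := 1 + C ^ 2) (by linarith) hc.le
      rw [Real.log_pow, ← hXC] at h3
      have h4 : (m : ℝ) ^ d - 1 ≤ C ^ 2 * (d * Real.log m) / Real.log X := by
        rw [le_div_iff₀ hlX]
        have h5 : X - 1 = C ^ 2 := by rw [hXC]; ring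
        rw [h5] at h3
        exact h3
      have h5 : 0 ≤ C ^ 2 * (d * Real.log m) := by positivity
      linarith
  have h4 : (A.card : ℝ) ≤ (⌈num m C⌉₊ : ℝ) * d :=
    key.trans (mul_le_mul_of_nonneg_right (Nat.le_ceil _) (by linarith))
  exact_mod_cast h4

/-- independence modulo a prime number is linear independence -/
theorem ind_iff {p : ℕ} [Fact p.Prime] [Module (ZMod p) Γ] (Λ : Set Γ) :
    Ind p Λ ↔ LinearIndepOn (ZMod p) id Λ := by
  classical
  have hp : p.Prime := Fact.out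
  rw [linearIndepOn_iff']
  constructor
  · intro h s g hs hg x hx
    have h1 := h s hs (fun x => ((g x).val : ℤ)) (fun x _ => by
      by_cases h0 : g x = 0
      · left
        simp [h0]
      · right
        rw [Nat.isCoprime_iff_coprime, Nat.coprime_comm, Nat.Prime.coprime_iff_not_dvd hp]
        intro hd
        have h2 := Nat.le_of_dvd (Nat.pos_of_ne_zero (by rwa [Ne, ZMod.val_eq_zero])) hd
        have h3 := ZMod.val_lt (g x)
        omega) (by
      rw [← hg]
      refine Finset.sum_congr rfl fun x _ => ?_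
      rw [← Int.cast_smul_eq_zsmul (ZMod p)]
      simp) x hx
    have h2 : (g x).val = 0 := by exact_mod_cast h1
    rwa [ZMod.val_eq_zero] at h2
  · intro h A hA ξ hξ hrel x hx
    have h1 := h A (fun x => (ξ x : ZMod p)) hA (by
      rw [← hrel]
      refine Finset.sum_congr rfl fun x _ => ?_
      rw [Int.cast_smul_eq_zsmul]
      rfl) x hx
    rcases hξ x hx with h2 | h2
    · exact h2
    · exfalso
      rw [ZMod.intCast_zmod_eq_zero_iff_dvd] at h1
      have h3 := h2.isUnit_of_dvd' h1 (dvd_refl _)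
      rw [Int.isUnit_iff] at h3
      have := hp.two_le
      omega

theorem qi_of_ind {m : ℕ} {Λ : Set Γ} (h : Ind m Λ) : QI Λ := by
  intro A hA ξ hξ
  refine h A hA ξ fun x hx => ?_
  rcases hξ x hx with h | h | h
  · right
    rw [h]
    exact (isCoprime_one_left (R := ℤ)).neg_left
  · left
    exact h
  · right
    rw [h]
    exact isCoprime_one_left

/-- small integers are zero or prime to `m` -/
theorem U_of_lt {m : ℕ} (z : ℤ) (hz : |z| < m.minFac) : U m z := by
  by_cases h0 : z = 0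
  · exact Or.inl h0
  right
  rw [Int.isCoprime_iff_gcd_eq_one]
  by_contra hne
  obtain ⟨p, hp, hpd⟩ := Nat.exists_prime_and_dvd hne
  have h1 : p ∣ z.natAbs := hpd.trans (Int.gcd_dvd_natAbs_left _ _)
  have h2 : p ∣ m := by
    have := hpd.trans (Int.gcd_dvd_natAbs_right z m)
    simpa using this
  have h3 := Nat.minFac_le_of_dvd hp.two_le h2
  have h4 := Nat.le_of_dvd (Int.natAbs_pos.2 h0) h1
  rw [Int.abs_eq_natAbs] at hz
  omega

end Pool.Agent.H46.SG
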